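import Mathlib
import Pool.Prelude.Def_F_c31e40fa
import Pool.Agent.N228.LC.Mod
import Pool.Agent.H712R2.Par

/-! # The distance of a real parameter to the Multibrot set (helper79)

`zr`, `dz`: the critical orbit of a positive parameter and its derivative. If the orbit has reached
`3` then the distance to the Multibrot set is at most a constant divided by the derivative. -/

set_option autoImplicit false

open Complex Set Topology Filter Metric N62a1eb23 Pool.Agent.H712R2

namespace Pool.Agent.H79LC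

/-- Schwarz-Pick for the logarithm of a function which is larger than one -/
theorem deriv_log {f : ℂ → ℂ} {x : ℂ} {r : ℝ} (hr : 0 < r) (hf : DifferentiableOn ℂ f (ball x r))
    (h1 : ∀ z ∈ ball x r, 1 < ‖f z‖) : ‖deriv f x‖ * r ≤ 2 * (‖f x‖ * Real.log ‖f x‖) := by
  have hx : x ∈ ball x r := mem_ball_self hr
  have hf0 : ∀ z ∈ ball x r, f z ≠ 0 := fun z hz => norm_pos_iff.1 (by linarith [h1 z hz])
  obtain ⟨g, hg, hgx, hge⟩ := Pool.Agent.H712R2.M.exists_log_ball hr hf hf0 (Complex.log (f x))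
    (Complex.exp_log (hf0 x hx))
  have hre : ∀ z ∈ ball x r, 0 < (g z).re := by
    intro z hz
    have h2 := h1 z hz
    rw [← hge z hz, Complex.norm_exp, Real.one_lt_exp_iff] at h2
    exact h2
  obtain ⟨a, ha⟩ : ∃ a, a = g x := ⟨_, rfl⟩
  have ha0 : 0 < a.re := by rw [ha]; exact hre x hx
  have hden : ∀ z ∈ ball x r, g z + (starRingEnd ℂ) a ≠ 0 := by
    intro z hz h
    have h2 := congrArg Complex.re h
    simp only [Complex.add_re, Complex.conj_re, Complex.zero_re] at h2
    linarith [hre z hz]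
  have hF : DifferentiableOn ℂ (fun z => (g z - a) / (g z + (starRingEnd ℂ) a)) (ball x r) :=
    (hg.sub_const a).div (hg.add_const _) hden
  have hFx : (fun z => (g z - a) / (g z + (starRingEnd ℂ) a)) x = 0 := by
    simp only [← ha, sub_self, zero_div]
  have hmaps : MapsTo (fun z => (g z - a) / (g z + (starRingEnd ℂ) a)) (ball x r)
      (ball ((fun z => (g z - a) / (g z + (starRingEnd ℂ) a)) x) 1) := by
    intro z hz
    rw [hFx, mem_ball_zero_iff, norm_div, div_lt_one (norm_pos_iff.2 (hden z hz))]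
    apply lt_of_pow_lt_pow_left₀ 2 (norm_nonneg _)
    rw [← Complex.normSq_eq_norm_sq, ← Complex.normSq_eq_norm_sq, Complex.normSq_apply,
      Complex.normSq_apply]
    simp only [Complex.sub_re, Complex.sub_im, Complex.add_re, Complex.add_im, Complex.conj_re,
      Complex.conj_im]
    nlinarith [mul_pos (hre z hz) ha0]
  have hb := Complex.norm_deriv_le_div_of_mapsTo_ball hF (hmaps.mono_right ball_subset_closedBall) hr
  have hgd : HasDerivAt g (deriv g x) x :=
    (hg.differentiableAt (isOpen_ball.mem_nhds hx)).hasDerivAt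
  have hFd : HasDerivAt (fun z => (g z - a) / (g z + (starRingEnd ℂ) a))
      ((deriv g x * (g x + (starRingEnd ℂ) a) - (g x - a) * deriv g x) /
        (g x + (starRingEnd ℂ) a) ^ 2) x :=
    (hgd.sub_const a).div (hgd.add_const _) (hden x hx)
  have h3 : a + (starRingEnd ℂ) a = ((2 * a.re : ℝ) : ℂ) := by
    apply Complex.ext <;> simp
    ring
  rw [hFd.deriv, ← ha, sub_self, zero_mul, sub_zero, h3, sq, mul_div_mul_right _ _ (by
    rw [Ne, Complex.ofReal_eq_zero]; positivity), norm_div, Complex.norm_real,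
    Real.norm_of_nonneg (by positivity), div_le_div_iff₀ (by positivity) hr] at hb
  have hfd : HasDerivAt f (Complex.exp (g x) * deriv g x) x := by
    have h4 : HasDerivAt (fun z => Complex.exp (g z)) (Complex.exp (g x) * deriv g x) x :=
      hgd.cexp
    refine h4.congr_of_eventuallyEq ?_
    filter_upwards [isOpen_ball.mem_nhds hx] with z hz
    exact (hge z hz).symm
  have hlog : Real.log ‖f x‖ = a.re := by
    rw [← hge x hx, Complex.norm_exp, Real.log_exp, ha]
  rw [hfd.deriv, hge x hx, norm_mul, hlog]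
  have := mul_le_mul_of_nonneg_left hb (norm_nonneg (f x))
  nlinarith

/-- the critical orbit of a real parameter -/
def zr (d : ℕ) (x : ℝ) : ℕ → ℝ
  | 0 => 0
  | k + 1 => zr d x k ^ d + x

/-- the derivative of the critical orbit with respect to the parameter -/
def dz (d : ℕ) (x : ℝ) : ℕ → ℝ
  | 0 => 0
  | k + 1 => d * zr d x k ^ (d - 1) * dz d x k + 1

theorem zr_succ (d : ℕ) (x : ℝ) (k : ℕ) : zr d x (k + 1) = zr d x k ^ d + x := rfl

theorem dz_succ (d : ℕ) (x : ℝ) (k : ℕ) :
    dz d x (k + 1) = d * zr d x k ^ (d - 1) * dz d x k + 1 := rfl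

theorem P_zr (d k : ℕ) (x : ℝ) : P d k (x : ℂ) = ((zr d x k : ℝ) : ℂ) := by
  induction k with
  | zero => simp [P_zero, zr]
  | succ k ih => rw [P_succ, ih, zr_succ]; push_cast; ring

theorem P_deriv (d k : ℕ) (x : ℝ) : HasDerivAt (P d k) ((dz d x k : ℝ) : ℂ) (x : ℂ) := by
  induction k with
  | zero =>
    have : P d 0 = fun _ => (0 : ℂ) := by funext c; exact P_zero d c
    rw [this]
    simpa [dz] using hasDerivAt_const (x : ℂ) (0 : ℂ)
  | succ k ih =>
    have h : P d (k + 1) = fun c => (P d k c) ^ d + c := by funext c; exact P_succ d k c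
    rw [h]
    have h2 : HasDerivAt (fun c => (P d k c) ^ d + c)
        ((d : ℂ) * (P d k (x : ℂ)) ^ (d - 1) * ((dz d x k : ℝ) : ℂ) + 1) (x : ℂ) :=
      (ih.fun_pow d).fun_add (hasDerivAt_id' (x : ℂ))
    have e : ((dz d x (k + 1) : ℝ) : ℂ) =
        (d : ℂ) * (P d k (x : ℂ)) ^ (d - 1) * ((dz d x k : ℝ) : ℂ) + 1 := by
      rw [dz_succ, P_zr]
      push_cast
      ring
    rw [e]
    exact h2

theorem P_differentiable (d k : ℕ) : Differentiable ℂ (P d k) := by
  induction k with
  | zero =>
    have : P d 0 = fun _ => (0 : ℂ) := by funext c; exact P_zero d c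
    rw [this]; exact differentiable_const _
  | succ k ih =>
    have h : P d (k + 1) = fun c => (P d k c) ^ d + c := by funext c; exact P_succ d k c
    rw [h]
    exact (ih.pow d).add differentiable_id

theorem zr_pos {d : ℕ} {x : ℝ} (hx : 0 < x) (k : ℕ) : 0 < zr d x (k + 1) := by
  induction k with
  | zero =>
    rw [zr_succ]
    have : 0 ≤ zr d x 0 ^ d := by simp only [zr]; positivity
    linarith
  | succ k ih => rw [zr_succ]; positivity

theorem dz_pos {d : ℕ} {x : ℝ} (hx : 0 < x) (k : ℕ) : 1 ≤ dz d x (k + 1) := by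
  induction k with
  | zero => rw [dz_succ]; simp [dz]
  | succ k ih =>
    rw [dz_succ]
    have := zr_pos (d := d) hx k
    have : 0 ≤ (d : ℝ) * zr d x (k + 1) ^ (d - 1) * dz d x (k + 1) := by positivity
    linarith

/-- uniform escape on compact sets of the complement -/
theorem unif {d : ℕ} (hd : 2 ≤ d) {K : Set ℂ} (hK : IsCompact K) (hKM : Disjoint K (multibrotSet d)) :
    ∃ m : ℕ, ∀ k : ℕ, m ≤ k → ∀ z ∈ K, 3 < ‖P d (k + 1) z‖ := by
  have hmono : ∀ i j : ℕ, i ≤ j → ∀ z, 3 < ‖P d (i + 1) z‖ → 3 < ‖P d (j + 1) z‖ := by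
    intro i j hij z hz
    by_contra h
    push Not at h
    exact absurd (show ‖P d (i + 1) z‖ ≤ 3 from multibrot_antitone hd hij h) (not_le.2 hz)
  have hop : ∀ m : ℕ, IsOpen {z : ℂ | 3 < ‖P d (m + 1) z‖} := fun m =>
    isOpen_lt continuous_const (continuous_P d (m + 1)).norm
  have hcov : K ⊆ ⋃ m : ℕ, {z : ℂ | 3 < ‖P d (m + 1) z‖} := by
    intro z hz
    have h1 : z ∉ multibrotSet d := fun h => Set.disjoint_left.1 hKM hz h
    rw [multibrot_eq_iInter hd] at h1
    simp only [mem_iInter, mem_ofPred_eq, not_forall, not_le] at h1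
    obtain ⟨m, hm⟩ := h1
    exact mem_iUnion.2 ⟨m, hm⟩
  obtain ⟨m, hm⟩ := hK.elim_directed_cover _ hop hcov (by
    intro i j
    exact ⟨max i j, fun z hz => hmono i _ (le_max_left _ _) z hz,
      fun z hz => hmono j _ (le_max_right _ _) z hz⟩)
  exact ⟨m, fun k hk z hz => hmono m k hk z (hm hz)⟩

/-- the ratio of derivative and size loses at most a factor two after `3` is reached -/
theorem ratio {d : ℕ} (hd : 2 ≤ d) {x : ℝ} (hx0 : 0 < x) (hx1 : x ≤ 1) {k : ℕ}
    (h3 : 3 ≤ zr d x (k + 1)) {q : ℝ} (hq0 : 0 ≤ q)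
    (hq : q * (zr d x (k + 1) * Real.log (zr d x (k + 1))) ≤ dz d x (k + 1)) (j : ℕ) :
    3 ≤ zr d x (k + 1 + j) ∧
    q * (1 / 2 + 3 / (2 * zr d x (k + 1 + j))) *
      (zr d x (k + 1 + j) * Real.log (zr d x (k + 1 + j))) ≤ dz d x (k + 1 + j) := by
  induction j with
  | zero =>
    refine ⟨by simpa using h3, ?_⟩
    rw [add_zero]
    refine le_trans ?_ hq
    have hl : 0 ≤ Real.log (zr d x (k + 1)) := Real.log_nonneg (by linarith)
    apply mul_le_mul_of_nonneg_right _ (by positivity)
    have : 3 / (2 * zr d x (k + 1)) ≤ 1 / 2 := by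
      rw [div_le_div_iff₀ (by positivity) (by norm_num)]
      linarith
    nlinarith
  | succ j ih =>
    obtain ⟨ih1, ih2⟩ := ih
    rw [← add_assoc]
    obtain ⟨z, hz⟩ : ∃ z, z = zr d x (k + 1 + j) := ⟨_, rfl⟩
    obtain ⟨D, hD⟩ : ∃ D, D = dz d x (k + 1 + j) := ⟨_, rfl⟩
    rw [zr_succ, dz_succ]
    rw [← hz] at ih1 ih2 ⊢
    rw [← hD] at ih2 ⊢
    have hz0 : 0 < z := by linarith
    have hdr : (2 : ℝ) ≤ d := by exact_mod_cast hd
    obtain ⟨w, hw⟩ : ∃ w, w = z ^ d := ⟨_, rfl⟩
    have hwz : z ^ 2 ≤ w := by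
      rw [hw]
      exact pow_le_pow_right₀ (by linarith) hd
    have hw9 : 9 ≤ w := by nlinarith
    have hlz : 1 ≤ Real.log z := by
      rw [Real.le_log_iff_exp_le hz0]
      linarith [Real.exp_one_lt_d9]
    have hlw : Real.log w = d * Real.log z := by rw [hw, Real.log_pow]
    have hlw2 : 2 ≤ Real.log w := by rw [hlw]; nlinarith
    have hzd : z ^ (d - 1) * z = w := by
      rw [hw, ← pow_succ]
      congr 1
      omega
    rw [← hw]
    refine ⟨by linarith, ?_⟩
    -- the logarithm
    have h4 : Real.log (w + x) ≤ Real.log w * (1 + 1 / (2 * w)) := by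
      have h5 : Real.log (w + x) = Real.log w + Real.log (1 + x / w) := by
        rw [← Real.log_mul (by positivity) (by positivity)]
        congr 1
        field_simp
      have h6 : Real.log (1 + x / w) ≤ x / w := by
        have := Real.log_le_sub_one_of_pos (show 0 < 1 + x / w by positivity)
        linarith
      have h7 : x / w ≤ Real.log w * (1 / (2 * w)) := by
        rw [mul_one_div, div_le_div_iff₀ (by positivity) (by positivity)]
        nlinarith
      rw [h5]
      nlinarith
    have h5 : w + x ≤ w * (1 + 1 / w) := by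
      have : w * (1 + 1 / w) = w + 1 := by field_simp
      linarith
    have hlx : 0 ≤ Real.log (w + x) := Real.log_nonneg (by linarith)
    have h6 : (w + x) * Real.log (w + x) ≤
        (w * Real.log w) * ((1 + 1 / w) * (1 + 1 / (2 * w))) := by
      calc (w + x) * Real.log (w + x) ≤ (w * (1 + 1 / w)) * (Real.log w * (1 + 1 / (2 * w))) :=
            mul_le_mul h5 h4 hlx (by positivity)
        _ = _ := by ring
    have h7 : 3 / (2 * (w + x)) ≤ 3 / (2 * w) := by
      apply div_le_div_of_nonneg_left (by norm_num) (by positivity)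
      linarith
    -- the weight
    have h8 : (1 / 2 + 3 / (2 * w)) * ((1 + 1 / w) * (1 + 1 / (2 * w))) ≤
        1 / 2 + 3 / (2 * z) := by
      have hiw : 1 / w ≤ (1 / z) ^ 2 := by
        rw [div_pow, one_pow]
        exact one_div_le_one_div_of_le (by positivity) hwz
      obtain ⟨s, hs⟩ : ∃ s, s = 1 / z := ⟨_, rfl⟩
      obtain ⟨t, ht⟩ : ∃ t, t = 1 / w := ⟨_, rfl⟩
      have hs0 : 0 ≤ s := by rw [hs]; positivity
      have hs3 : s ≤ 1 / 3 := by
        rw [hs]
        exact one_div_le_one_div_of_le (by norm_num) ih1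
      have ht0 : 0 ≤ t := by rw [ht]; positivity
      have e1 : 3 / (2 * w) = 3 / 2 * t := by rw [ht]; field_simp
      have e2 : 1 / (2 * w) = t / 2 := by rw [ht]; field_simp
      have e3 : 3 / (2 * z) = 3 / 2 * s := by rw [hs]; field_simp
      rw [e1, e2, e3, ← ht]
      rw [← ht, ← hs] at hiw
      have ht9 : t ≤ 1 / 9 := by nlinarith
      have hts : t ≤ s / 3 := by nlinarith
      have htt : t * t ≤ 1 / 9 * t := mul_le_mul_of_nonneg_right ht9 ht0
      have h9 : (1 + t) * (1 + t / 2) ≤ 1 + 14 / 9 * t := by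
        have : (1 + t) * (1 + t / 2) = 1 + 3 / 2 * t + 1 / 2 * (t * t) := by ring
        rw [this]; linarith
      have h10 : (1 / 2 + 3 / 2 * t) * ((1 + t) * (1 + t / 2)) ≤
          (1 / 2 + 3 / 2 * t) * (1 + 14 / 9 * t) :=
        mul_le_mul_of_nonneg_left h9 (by positivity)
      refine h10.trans ?_
      have h11 : (1 / 2 + 3 / 2 * t) * (1 + 14 / 9 * t) = 1 / 2 + (3 / 2 + 7 / 9) * t +
          7 / 3 * (t * t) := by ring
      rw [h11]
      linarith
    have h9 : q * (1 / 2 + 3 / (2 * (w + x))) * ((w + x) * Real.log (w + x)) ≤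
        q * (1 / 2 + 3 / (2 * z)) * (w * Real.log w) := by
      calc q * (1 / 2 + 3 / (2 * (w + x))) * ((w + x) * Real.log (w + x))
          ≤ q * (1 / 2 + 3 / (2 * w)) *
            ((w * Real.log w) * ((1 + 1 / w) * (1 + 1 / (2 * w)))) := by
            apply mul_le_mul _ h6 (by positivity) (by positivity)
            apply mul_le_mul_of_nonneg_left _ hq0
            linarith
        _ = q * (w * Real.log w) * ((1 / 2 + 3 / (2 * w)) * ((1 + 1 / w) * (1 + 1 / (2 * w)))) := by
            ring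
        _ ≤ q * (w * Real.log w) * (1 / 2 + 3 / (2 * z)) := by
            apply mul_le_mul_of_nonneg_left h8 (by positivity)
        _ = _ := by ring
    refine h9.trans ?_
    have h10 : q * (1 / 2 + 3 / (2 * z)) * (w * Real.log w) =
        (d * z ^ (d - 1)) * (q * (1 / 2 + 3 / (2 * z)) * (z * Real.log z)) := by
      rw [hlw, ← hzd]
      ring
    rw [h10]
    have := mul_le_mul_of_nonneg_left ih2 (show 0 ≤ (d : ℝ) * z ^ (d - 1) by positivity)
    linarith

/-- a ball about `x` which does not meet the Multibrot set is small -/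
theorem radius_le {d : ℕ} (hd : 2 ≤ d) {x : ℝ} (hx0 : 0 < x) (hx1 : x ≤ 1) {k : ℕ}
    (h3 : zr d x (k + 1) = 3) {r : ℝ} (hr : 0 < r)
    (hM : Disjoint (closedBall (x : ℂ) r) (multibrotSet d)) : r * dz d x (k + 1) ≤ 14 := by
  obtain ⟨m, hm⟩ := unif hd (isCompact_closedBall (x : ℂ) r) hM
  have hl3 : 0 < Real.log 3 := Real.log_pos (by norm_num)
  have hl3' : Real.log 3 ≤ 7 / 6 := by
    have h := Real.log_le_sub_one_of_pos (show (0 : ℝ) < 3 / 2 ^ 1 / (5 / 4) by norm_num)
    have e : Real.log (3 / 2 ^ 1 / (5 / 4)) = Real.log 3 - Real.log 2 - Real.log (5 / 4) := by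
      rw [Real.log_div (by norm_num) (by norm_num), Real.log_div (by norm_num) (by norm_num)]
      norm_num
    have h5 := Real.log_le_sub_one_of_pos (show (0 : ℝ) < 5 / 4 by norm_num)
    have h2 := Real.log_two_lt_d9
    rw [e] at h
    linarith
  obtain ⟨q, hq⟩ : ∃ q, q = dz d x (k + 1) / (3 * Real.log 3) := ⟨_, rfl⟩
  have hD := dz_pos (d := d) hx0 k
  have hq0 : 0 ≤ q := by rw [hq]; positivity
  have hq' : q * (zr d x (k + 1) * Real.log (zr d x (k + 1))) ≤ dz d x (k + 1) := by
    rw [h3, hq]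
    apply le_of_eq
    field_simp
  obtain ⟨a1, a2⟩ := ratio hd hx0 hx1 h3.ge hq0 hq' m
  have hd1 := deriv_log (f := P d (k + 1 + m)) hr (P_differentiable d _).differentiableOn
    (fun z hz => by
      have := hm (k + m) (by omega) z (ball_subset_closedBall hz)
      rw [show k + m + 1 = k + 1 + m by ring] at this
      linarith)
  have hDm : 0 ≤ dz d x (k + 1 + m) := by
    have := dz_pos (d := d) hx0 (k + m)
    rw [show k + m + 1 = k + 1 + m by ring] at this
    linarith
  rw [(P_deriv d (k + 1 + m) x).deriv, P_zr, Complex.norm_real, Complex.norm_real,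
    Real.norm_of_nonneg hDm, Real.norm_of_nonneg (by linarith)] at hd1
  obtain ⟨z, hz⟩ : ∃ z, z = zr d x (k + 1 + m) := ⟨_, rfl⟩
  rw [← hz] at a1 a2 hd1
  have hL : 0 < z * Real.log z := mul_pos (by linarith) (Real.log_pos (by linarith))
  have h4 : q * (1 / 2) * (z * Real.log z) ≤ dz d x (k + 1 + m) := by
    refine le_trans ?_ a2
    apply mul_le_mul_of_nonneg_right _ hL.le
    apply mul_le_mul_of_nonneg_left _ hq0
    have : 0 ≤ 3 / (2 * z) := by positivity
    linarith
  have h5 : q * (1 / 2) * r * (z * Real.log z) ≤ 2 * (z * Real.log z) := by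
    have := mul_le_mul_of_nonneg_right h4 hr.le
    linarith
  have h6 : q * (1 / 2) * r ≤ 2 := le_of_mul_le_mul_right h5 hL
  rw [hq] at h6
  have h7 : dz d x (k + 1) / (3 * Real.log 3) * (1 / 2) * r =
      r * dz d x (k + 1) / (6 * Real.log 3) := by field_simp; ring
  rw [h7, div_le_iff₀ (by positivity)] at h6
  linarith

end Pool.Agent.H79LC
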