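import Mathlib
import Pool.Prelude.Def_F_c31e40fa
import Pool.Agent.H79LC.A1

/-! # The critical orbits of real parameters to the right of the cusp (helper79) -/

set_option autoImplicit false

open Set Topology Filter Metric N62a1eb23 Pool.Agent.H712R2

namespace Pool.Agent.H79LC

/-- the parameter in the coordinate of the exponential family -/
noncomputable def lam (d : ℕ) (x : ℝ) : ℝ := d * x ^ (d - 1)

/-- the critical orbit in the coordinate of the exponential family -/
noncomputable def nu (d : ℕ) (x : ℝ) (j : ℕ) : ℝ := d * (zr d x (j + 1) / x - 1)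

theorem zr_one {d : ℕ} (hd : 2 ≤ d) (x : ℝ) : zr d x 1 = x := by
  rw [zr_succ]
  simp [zr, show d ≠ 0 by omega]

section

variable {d : ℕ} {x : ℝ}

theorem nu_zero (hd : 2 ≤ d) (hx : 0 < x) : nu d x 0 = 0 := by
  unfold nu
  rw [zero_add, zr_one hd, div_self hx.ne']
  simp

theorem zr_nu (hd : 2 ≤ d) (hx : 0 < x) (j : ℕ) : zr d x (j + 1) = x * (1 + nu d x j / d) := by
  have hdr : (0 : ℝ) < d := by exact_mod_cast (show 0 < d by omega)
  unfold nu
  field_simp
  ring

theorem pow_split (hd : 2 ≤ d) (y : ℝ) : y ^ d = y ^ (d - 1) * y := by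
  rw [← pow_succ]
  congr 1
  omega

theorem nu_succ (hd : 2 ≤ d) (hx : 0 < x) (j : ℕ) :
    nu d x (j + 1) = lam d x * (1 + nu d x j / d) ^ d := by
  have hdr : (0 : ℝ) < d := by exact_mod_cast (show 0 < d by omega)
  have h1 := zr_nu hd hx j
  have h2 : nu d x (j + 1) = d * (zr d x (j + 1) ^ d / x) := by
    show (d : ℝ) * (zr d x (j + 1 + 1) / x - 1) = _
    rw [zr_succ]
    field_simp
    ring
  rw [h2, h1, mul_pow, lam, pow_split hd x]
  field_simp

theorem lam_pos (hd : 2 ≤ d) (hx : 0 < x) : 0 < lam d x := by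
  have hdr : (0 : ℝ) < d := by exact_mod_cast (show 0 < d by omega)
  unfold lam
  positivity

theorem nu_nonneg (hd : 2 ≤ d) (hx : 0 < x) (j : ℕ) : 0 ≤ nu d x j := by
  induction j with
  | zero => rw [nu_zero hd hx]
  | succ j ih =>
    rw [nu_succ hd hx]
    have := lam_pos hd hx
    positivity

theorem nu_one (hd : 2 ≤ d) (hx : 0 < x) : nu d x 1 = lam d x := by
  rw [nu_succ hd hx, nu_zero hd hx]
  simp

theorem nu_ge (hd : 2 ≤ d) (hx : 0 < x) (j : ℕ) :
    lam d x * (1 + nu d x j) ≤ nu d x (j + 1) := by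
  have hdr : (0 : ℝ) < d := by exact_mod_cast (show 0 < d by omega)
  rw [nu_succ hd hx]
  apply mul_le_mul_of_nonneg_left _ (lam_pos hd hx).le
  have h0 := nu_nonneg hd hx j
  have h1 := one_add_mul_le_pow (a := nu d x j / d) (by
    have : 0 ≤ nu d x j / d := by positivity
    linarith) d
  have h2 : 1 + (d : ℝ) * (nu d x j / d) = 1 + nu d x j := by field_simp
  linarith

theorem nu_le (hd : 2 ≤ d) (hx : 0 < x) (j : ℕ) :
    nu d x (j + 1) ≤ lam d x * Real.exp (nu d x j) := by
  have hdr : (0 : ℝ) < d := by exact_mod_cast (show 0 < d by omega)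
  rw [nu_succ hd hx]
  apply mul_le_mul_of_nonneg_left _ (lam_pos hd hx).le
  have h0 := nu_nonneg hd hx j
  have h1 : 1 + nu d x j / d ≤ Real.exp (nu d x j / d) := by
    have := Real.add_one_le_exp (nu d x j / d)
    linarith
  have h2 : (1 + nu d x j / d) ^ d ≤ Real.exp (nu d x j / d) ^ d :=
    pow_le_pow_left₀ (by positivity) h1 d
  rw [← Real.exp_nat_mul] at h2
  have h3 : (d : ℝ) * (nu d x j / d) = nu d x j := by field_simp
  rwa [h3] at h2

theorem nu_half (hd : 2 ≤ d) (hx : 0 < x) (hl : 2 ≤ lam d x) (j : ℕ) :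
    2 * nu d x j ≤ nu d x (j + 1) := by
  have h1 := nu_ge hd hx j
  have h0 := nu_nonneg hd hx j
  nlinarith

theorem nu_geom (hd : 2 ≤ d) (hx : 0 < x) (hl : 2 ≤ lam d x) (j : ℕ) :
    2 ^ j * lam d x ≤ nu d x (j + 1) := by
  induction j with
  | zero => rw [nu_one hd hx]; simp
  | succ j ih =>
    have := nu_half hd hx hl (j + 1)
    rw [pow_succ]
    nlinarith

theorem sum_nu (hd : 2 ≤ d) (hx : 0 < x) (hl : 2 ≤ lam d x) (j : ℕ) :
    ∑ m ∈ Finset.range (j + 1), nu d x m ≤ 2 * nu d x j := by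
  induction j with
  | zero => simp [nu_zero hd hx]
  | succ j ih =>
    rw [Finset.sum_range_succ]
    have := nu_half hd hx hl j
    linarith

theorem sum_inv (hd : 2 ≤ d) (hx : 0 < x) (hl : 2 ≤ lam d x) (j : ℕ) :
    ∑ m ∈ Finset.range j, 1 / nu d x (m + 1) ≤ (2 - (1 / 2) ^ j * 2) / lam d x := by
  have hl0 : 0 < lam d x := by linarith
  induction j with
  | zero => simp
  | succ j ih =>
    rw [Finset.sum_range_succ]
    have h1 := nu_geom hd hx hl j
    have h2 : 1 / nu d x (j + 1) ≤ (1 / 2) ^ j / lam d x := by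
      have : (1 / 2 : ℝ) ^ j / lam d x = 1 / (2 ^ j * lam d x) := by
        rw [one_div, inv_pow]
        field_simp
      rw [this]
      exact one_div_le_one_div_of_le (by positivity) h1
    have h3 : (2 - (1 / 2 : ℝ) ^ (j + 1) * 2) / lam d x =
        (2 - (1 / 2) ^ j * 2) / lam d x + (1 / 2) ^ j / lam d x := by
      rw [pow_succ]
      field_simp
      ring
    linarith

/-! ## the iterated logarithms -/

/-- iterated logarithms -/
noncomputable def LL (d : ℕ) (i : ℕ) : ℝ := Real.log^[i] (d : ℝ)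

theorem LL_zero (d : ℕ) : LL d 0 = d := rfl

theorem LL_succ (d i : ℕ) : LL d (i + 1) = Real.log (LL d i) := Function.iterate_succ_apply' _ _ _

theorem LL_mono {k : ℕ} (h4 : ∀ i ≤ k, 4 ≤ LL d i) (j : ℕ) (hj : j ≤ k) :
    LL d k ≤ LL d (k - j) := by
  induction j with
  | zero => rfl
  | succ j ih =>
    have h1 := ih (by omega)
    have h2 : LL d (k - j) = Real.log (LL d (k - (j + 1))) := by
      rw [← LL_succ]
      congr 1
      omega
    have h3 := h4 (k - (j + 1)) (by omega)
    have h5 := Real.log_le_sub_one_of_pos (show 0 < LL d (k - (j + 1)) by linarith)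
    linarith

theorem t_exp (t : ℝ) : t * Real.exp (t / 2) ≤ Real.exp t := by
  have h1 : t ≤ Real.exp (t / 2) := by
    rcases le_or_gt t 0 with h | h
    · exact h.trans (Real.exp_pos _).le
    · have := Real.quadratic_le_exp_of_nonneg (show 0 ≤ t / 2 by linarith)
      nlinarith [sq_nonneg (t - 2)]
  have h2 : Real.exp t = Real.exp (t / 2) * Real.exp (t / 2) := by
    rw [← Real.exp_add]; congr 1; ring
  rw [h2]
  exact mul_le_mul_of_nonneg_right h1 (Real.exp_pos _).le

/-- lower bound for the parameter -/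
theorem lam_ge (hd : 2 ≤ d) (hx : 0 < x) {k : ℕ} (h4 : ∀ i ≤ k, 4 ≤ LL d i)
    (hK : (d : ℝ) ≤ nu d x (k + 1)) : LL d k / 2 ≤ lam d x := by
  by_contra hcon
  push Not at hcon
  have key : ∀ j ≤ k, nu d x (j + 1) ≤ LL d (k - j) / 2 := by
    intro j
    induction j with
    | zero => intro _; rw [nu_one hd hx, Nat.sub_zero]; exact hcon.le
    | succ j ih =>
      intro hj
      have h1 := ih (by omega)
      have h2 := nu_le hd hx (j + 1)
      have h3 := LL_mono h4 j (by omega)
      have h5 : LL d (k - j) = Real.log (LL d (k - (j + 1))) := by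
        rw [← LL_succ]
        congr 1
        omega
      have h6 := h4 (k - (j + 1)) (by omega)
      have h7 : Real.exp (LL d (k - j)) = LL d (k - (j + 1)) := by
        rw [h5, Real.exp_log (by linarith)]
      have h8 := t_exp (LL d (k - j))
      rw [h7] at h8
      have h9 : Real.exp (nu d x (j + 1)) ≤ Real.exp (LL d (k - j) / 2) := Real.exp_le_exp.2 h1
      have h10 : lam d x * Real.exp (nu d x (j + 1)) ≤
          LL d (k - j) / 2 * Real.exp (LL d (k - j) / 2) :=
        mul_le_mul (by linarith) h9 (Real.exp_pos _).le (by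
          have := h4 (k - j) (by omega)
          linarith)
      linarith
  have h := key k le_rfl
  rw [Nat.sub_self, LL_zero] at h
  have hdr : (2 : ℝ) ≤ d := by exact_mod_cast hd
  linarith

/-- the product of the orbit against the product of the iterated logarithms -/
theorem prod_ge (hd : 2 ≤ d) (hx : 0 < x) (hl : 2 ≤ lam d x) {k : ℕ}
    (h4 : ∀ i ≤ k, 4 ≤ LL d i) (hK : (d : ℝ) ≤ nu d x (k + 1)) :
    ∏ i ∈ Finset.range (k + 1), LL d i ≤
      Real.exp 2 * ∏ m ∈ Finset.range (k + 1), nu d x (m + 1) := by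
  have hl0 : 0 < lam d x := by linarith
  obtain ⟨b, hb⟩ : ∃ b, b = 1 + Real.log (lam d x) := ⟨_, rfl⟩
  have hb1 : b ≤ lam d x := by
    rw [hb]
    linarith [Real.log_le_sub_one_of_pos hl0]
  have hb0 : 0 ≤ b := by
    rw [hb]
    linarith [Real.log_nonneg (show 1 ≤ lam d x by linarith)]
  have hnu : ∀ j, lam d x ≤ nu d x (j + 1) := by
    intro j
    have h1 := nu_geom hd hx hl j
    have h2 : (1 : ℝ) ≤ 2 ^ j := one_le_pow₀ (by norm_num)
    nlinarith
  have key : ∀ j ≤ k, LL d j ≤ Real.exp (b / nu d x (k + 1 - j)) * nu d x (k + 1 - j) := by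
    intro j
    induction j with
    | zero =>
      intro _
      rw [LL_zero, Nat.sub_zero]
      have h1 : 1 ≤ Real.exp (b / nu d x (k + 1)) :=
        Real.one_le_exp (div_nonneg hb0 (by linarith [hnu k]))
      have := hnu k
      nlinarith
    | succ j ih =>
      intro hj
      have h1 := ih (by omega)
      obtain ⟨m, hm⟩ : ∃ m, k = m + (j + 1) := ⟨k - (j + 1), by omega⟩
      have e1 : k + 1 - j = m + 1 + 1 := by omega
      have e2 : k + 1 - (j + 1) = m + 1 := by omega
      rw [e1] at h1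
      rw [e2, LL_succ]
      have h2 := hnu (m + 1)
      have h3 := hnu m
      have h5 := h4 j (by omega)
      have h6 : Real.exp (b / nu d x (m + 1 + 1)) ≤ Real.exp 1 := by
        apply Real.exp_le_exp.2
        rw [div_le_one (by linarith)]
        linarith
      have h7 : LL d j ≤ Real.exp 1 * (lam d x * Real.exp (nu d x (m + 1))) := by
        refine h1.trans ?_
        exact mul_le_mul h6 (nu_le hd hx (m + 1)) (by linarith) (Real.exp_pos _).le
      have h8 := Real.log_le_log (by linarith) h7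
      rw [Real.log_mul (Real.exp_pos _).ne' (by positivity), Real.log_mul hl0.ne'
        (Real.exp_pos _).ne', Real.log_exp, Real.log_exp] at h8
      have h9 : nu d x (m + 1) + b ≤ Real.exp (b / nu d x (m + 1)) * nu d x (m + 1) := by
        have h10 := Real.add_one_le_exp (b / nu d x (m + 1))
        have h11 := mul_le_mul_of_nonneg_right h10 (show 0 ≤ nu d x (m + 1) by linarith)
        have h12 : (b / nu d x (m + 1) + 1) * nu d x (m + 1) = nu d x (m + 1) + b := by
          have : nu d x (m + 1) ≠ 0 := by linarith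
          field_simp
          ring
        linarith
      linarith
  have h1 : ∏ i ∈ Finset.range (k + 1), LL d i ≤
      ∏ i ∈ Finset.range (k + 1), (Real.exp (b / nu d x (k + 1 - i)) * nu d x (k + 1 - i)) := by
    apply Finset.prod_le_prod
    · intro i hi
      rw [Finset.mem_range] at hi
      linarith [h4 i (by omega)]
    · intro i hi
      rw [Finset.mem_range] at hi
      exact key i (by omega)
  refine h1.trans ?_
  rw [Finset.prod_mul_distrib, ← Real.exp_sum]
  have e1 : ∏ i ∈ Finset.range (k + 1), nu d x (k + 1 - i) =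
      ∏ m ∈ Finset.range (k + 1), nu d x (m + 1) := by
    rw [← Finset.prod_range_reflect]
    apply Finset.prod_congr rfl
    intro i hi
    rw [Finset.mem_range] at hi
    congr 1
    omega
  have e2 : ∑ i ∈ Finset.range (k + 1), b / nu d x (k + 1 - i) =
      b * ∑ m ∈ Finset.range (k + 1), 1 / nu d x (m + 1) := by
    rw [Finset.mul_sum, ← Finset.sum_range_reflect]
    apply Finset.sum_congr rfl
    intro i hi
    rw [Finset.mem_range] at hi
    rw [mul_one_div]
    congr 2
    omega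
  rw [e1, e2]
  apply mul_le_mul_of_nonneg_right _ (Finset.prod_nonneg fun m _ => nu_nonneg hd hx _)
  apply Real.exp_le_exp.2
  have h2 := sum_inv hd hx hl (k + 1)
  have h3 : (2 - (1 / 2 : ℝ) ^ (k + 1) * 2) / lam d x ≤ 2 / lam d x := by
    apply div_le_div_of_nonneg_right _ hl0.le
    have : (0 : ℝ) ≤ (1 / 2) ^ (k + 1) := by positivity
    linarith
  calc b * ∑ m ∈ Finset.range (k + 1), 1 / nu d x (m + 1) ≤ lam d x * (2 / lam d x) := by
        apply mul_le_mul hb1 (h2.trans h3) _ hl0.le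
        apply Finset.sum_nonneg
        intro m _
        exact div_nonneg zero_le_one (nu_nonneg hd hx _)
    _ = 2 := by field_simp

/-! ## the derivative -/

theorem dz_factor (hd : 2 ≤ d) (hx : 0 < x) (m : ℕ) :
    (d : ℝ) * zr d x (m + 1) ^ (d - 1) = nu d x (m + 1) / (1 + nu d x m / d) := by
  have hdr : (0 : ℝ) < d := by exact_mod_cast (show 0 < d by omega)
  have h0 := nu_nonneg hd hx m
  have h1 := zr_nu hd hx m
  have h2 : 0 < 1 + nu d x m / d := by
    have : 0 ≤ nu d x m / d := div_nonneg h0 hdr.le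
    linarith
  rw [eq_div_iff h2.ne', nu_succ hd hx, h1, mul_pow, lam, pow_split hd (1 + nu d x m / d)]
  ring

theorem dz_ge (hd : 2 ≤ d) (hx : 0 < x) (K : ℕ) :
    (∏ m ∈ Finset.range K, nu d x (m + 1)) / Real.exp (∑ m ∈ Finset.range K, nu d x m / d) ≤
      dz d x (K + 1) := by
  have hdr : (0 : ℝ) < d := by exact_mod_cast (show 0 < d by omega)
  induction K with
  | zero => simpa using dz_pos hx 0
  | succ K ih =>
    rw [dz_succ, dz_factor hd hx K, Finset.prod_range_succ, Finset.sum_range_succ, Real.exp_add]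
    have h0 := nu_nonneg hd hx K
    have h1 := nu_nonneg hd hx (K + 1)
    have h2 : 1 + nu d x K / d ≤ Real.exp (nu d x K / d) := by
      have := Real.add_one_le_exp (nu d x K / d)
      linarith
    have h3 : 0 < 1 + nu d x K / d := by
      have : 0 ≤ nu d x K / d := div_nonneg h0 hdr.le
      linarith
    have h4 : (∏ m ∈ Finset.range K, nu d x (m + 1)) * nu d x (K + 1) /
        (Real.exp (∑ m ∈ Finset.range K, nu d x m / d) * Real.exp (nu d x K / d)) =
        nu d x (K + 1) / Real.exp (nu d x K / d) *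
        ((∏ m ∈ Finset.range K, nu d x (m + 1)) /
          Real.exp (∑ m ∈ Finset.range K, nu d x m / d)) := by
      field_simp
    rw [h4]
    have h5 : nu d x (K + 1) / Real.exp (nu d x K / d) ≤ nu d x (K + 1) / (1 + nu d x K / d) :=
      div_le_div_of_nonneg_left h1 h3 h2
    have h6 : 0 ≤ (∏ m ∈ Finset.range K, nu d x (m + 1)) /
          Real.exp (∑ m ∈ Finset.range K, nu d x m / d) :=
      div_nonneg (Finset.prod_nonneg fun m _ => nu_nonneg hd hx _) (Real.exp_pos _).le
    have h7 := mul_le_mul h5 ih h6 (div_nonneg h1 h3.le)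
    linarith

end

theorem lt_two (d : ℕ) (hd : 2 ≤ d) : (d : ℝ) * (3 / 4) ^ (d - 1) < 2 := by
  obtain ⟨e, rfl⟩ : ∃ e, d = e + 2 := ⟨d - 2, by omega⟩
  rw [show e + 2 - 1 = e + 1 by omega]
  have key : ∀ e : ℕ, ((e + 1 + 2 : ℕ) : ℝ) * (3 / 4) ^ (e + 1 + 1) ≤ 27 / 16 := by
    intro e
    induction e with
    | zero => norm_num
    | succ e ih =>
      have h1 : ((e + 1 + 1 + 2 : ℕ) : ℝ) * (3 / 4) ^ (e + 1 + 1 + 1) =
          (((e : ℝ) + 4) * (3 / 4)) * (3 / 4) ^ (e + 1 + 1) := by
        push_cast; ring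
      rw [h1]
      refine le_trans ?_ ih
      apply mul_le_mul_of_nonneg_right _ (by positivity)
      push_cast
      have : (0 : ℝ) ≤ e := Nat.cast_nonneg e
      linarith
  rcases Nat.eq_zero_or_pos e with rfl | h
  · norm_num
  · obtain ⟨f, rfl⟩ : ∃ f, e = f + 1 := ⟨e - 1, by omega⟩
    have := key f
    linarith

theorem x_ge {d : ℕ} {x : ℝ} (hd : 2 ≤ d) (hx : 0 < x) (hl : 2 ≤ lam d x) : 3 / 4 ≤ x := by
  by_contra h
  push Not at h
  have h1 := lt_two d hd
  have h2 : x ^ (d - 1) ≤ (3 / 4) ^ (d - 1) := pow_le_pow_left₀ hx.le h.le _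
  have h3 : lam d x ≤ d * (3 / 4) ^ (d - 1) :=
    mul_le_mul_of_nonneg_left h2 (Nat.cast_nonneg d)
  linarith

theorem nu_last {d : ℕ} {x : ℝ} (hd : 2 ≤ d) (hx : 0 < x) (hl : 2 ≤ lam d x) {k : ℕ}
    (h3 : zr d x (k + 2) = 3) : nu d x k / d ≤ 1 := by
  have hdr : (2 : ℝ) ≤ d := by exact_mod_cast hd
  have hx34 := x_ge hd hx hl
  by_contra h
  push Not at h
  have h1 : nu d x (k + 1) = d * (3 / x - 1) := by
    unfold nu
    rw [h3]
  have h2 : nu d x (k + 1) ≤ 3 * d := by
    rw [h1]
    have : 3 / x ≤ 4 := by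
      rw [div_le_iff₀ hx]; linarith
    nlinarith
  have h4 := nu_succ hd hx k
  have h5 : (2 : ℝ) ^ d ≤ (1 + nu d x k / d) ^ d := pow_le_pow_left₀ (by norm_num) (by linarith) d
  have h6 : (2 : ℝ) * d ≤ 2 ^ d := by
    have h7 : ∀ e : ℕ, 2 * ((e + 2 : ℕ) : ℝ) ≤ 2 ^ (e + 2) := by
      intro e
      induction e with
      | zero => norm_num
      | succ e ih =>
        rw [show e + 1 + 2 = (e + 2) + 1 by ring, pow_succ]
        push_cast at ih ⊢
        have : (0 : ℝ) ≤ e := Nat.cast_nonneg e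
        linarith
    obtain ⟨e, rfl⟩ : ∃ e, d = e + 2 := ⟨d - 2, by omega⟩
    exact h7 e
  have h8 : 2 * (2 * (d : ℝ)) ≤ lam d x * (1 + nu d x k / d) ^ d :=
    mul_le_mul hl (h6.trans h5) (by positivity) (by linarith)
  linarith

/-- the derivative against the product of the iterated logarithms -/
theorem dz_LL {d : ℕ} {x : ℝ} (hd : 2 ≤ d) (hx : 0 < x) (hx1 : x ≤ 1) {k : ℕ}
    (h4 : ∀ i ≤ k, 4 ≤ LL d i) (h3 : zr d x (k + 2) = 3) :
    LL d k / 2 ≤ lam d x ∧ ∏ i ∈ Finset.range (k + 1), LL d i ≤ 55 * dz d x (k + 2) := by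
  have hdr : (2 : ℝ) ≤ d := by exact_mod_cast hd
  have hK : (d : ℝ) ≤ nu d x (k + 1) := by
    unfold nu
    rw [h3]
    have : 3 ≤ 3 / x := by
      rw [le_div_iff₀ hx]; linarith
    nlinarith
  have hl := lam_ge hd hx h4 hK
  have hl2 : 2 ≤ lam d x := by linarith [h4 k le_rfl]
  refine ⟨hl, ?_⟩
  have h1 := prod_ge hd hx hl2 h4 hK
  have h2 := dz_ge hd hx (k + 1)
  have h5 : ∑ m ∈ Finset.range (k + 1), nu d x m / d ≤ 2 := by
    rw [← Finset.sum_div]
    have h6 := sum_nu hd hx hl2 k
    have h7 := nu_last hd hx hl2 h3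
    have h8 : (∑ m ∈ Finset.range (k + 1), nu d x m) / d ≤ 2 * nu d x k / d :=
      div_le_div_of_nonneg_right h6 (by linarith)
    have h9 : 2 * nu d x k / d = 2 * (nu d x k / d) := by ring
    linarith
  have h6 : (∏ m ∈ Finset.range (k + 1), nu d x (m + 1)) / Real.exp 2 ≤ dz d x (k + 2) := by
    refine le_trans ?_ h2
    apply div_le_div_of_nonneg_left (Finset.prod_nonneg fun m _ => nu_nonneg hd hx _)
      (Real.exp_pos _) (Real.exp_le_exp.2 h5)
  rw [div_le_iff₀ (Real.exp_pos _)] at h6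
  have h7 : Real.exp 2 * Real.exp 2 ≤ 55 := by
    have h8 := Real.exp_one_lt_d9
    have h9 : Real.exp 2 * Real.exp 2 = Real.exp 1 ^ 4 := by
      rw [← Real.exp_add, ← Real.exp_nat_mul]
      congr 1
      norm_num
    rw [h9]
    have h10 : Real.exp 1 ^ 4 ≤ 2.7182818286 ^ 4 :=
      pow_le_pow_left₀ (Real.exp_pos _).le h8.le 4
    refine h10.trans ?_
    norm_num
  have h8 : 0 ≤ dz d x (k + 2) := by linarith [dz_pos (d := d) hx (k + 1)]
  calc ∏ i ∈ Finset.range (k + 1), LL d i
      ≤ Real.exp 2 * ∏ m ∈ Finset.range (k + 1), nu d x (m + 1) := h1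
    _ ≤ Real.exp 2 * (dz d x (k + 2) * Real.exp 2) :=
        mul_le_mul_of_nonneg_left h6 (Real.exp_pos _).le
    _ = (Real.exp 2 * Real.exp 2) * dz d x (k + 2) := by ring
    _ ≤ 55 * dz d x (k + 2) := mul_le_mul_of_nonneg_right h7 h8

end Pool.Agent.H79LC
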