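import Mathlib
import Pool.Prelude.Def_F_c31e40fa
import Pool.Agent.H79LC.A2

/-! # Pairs of close points of the Multibrot sets which are far apart inside (helper79) -/

set_option autoImplicit false

open Set Topology Filter Metric N62a1eb23 Pool.Agent.H712R2

namespace Pool.Agent.H79LC

theorem zr_cont (d k : ℕ) : Continuous fun x : ℝ => zr d x k := by
  induction k with
  | zero => exact continuous_const
  | succ k ih =>
    show Continuous fun x : ℝ => zr d x k ^ d + x
    exact (ih.pow d).add continuous_id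

/-- at the cusp the orbit stays bounded -/
theorem zr_rr {d : ℕ} (hd : 2 ≤ d) (k : ℕ) : 0 ≤ zr d (rr d) k ∧ zr d (rr d) k ≤ 1 := by
  have hr := rr_pos hd
  have hs := sr_pos d
  have hs1 := sr_lt_one hd
  have key : ∀ k, 0 ≤ zr d (rr d) k ∧ zr d (rr d) k ≤ sr d := by
    intro k
    induction k with
    | zero => exact ⟨le_rfl, hs.le⟩
    | succ k ih =>
      rw [zr_succ]
      have h1 : zr d (rr d) k ^ d ≤ sr d ^ d := pow_le_pow_left₀ ih.1 ih.2 d
      have h2 : 0 ≤ zr d (rr d) k ^ d := pow_nonneg ih.1 d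
      refine ⟨by linarith, ?_⟩
      have : rr d = sr d - sr d ^ d := rfl
      linarith
  exact ⟨(key k).1, (key k).2.trans hs1.le⟩

theorem rr_lt_one {d : ℕ} (hd : 2 ≤ d) : rr d < 1 := by
  have h1 := sr_lt_one hd
  have h2 : 0 < sr d ^ d := pow_pos (sr_pos d) d
  have : rr d = sr d - sr d ^ d := rfl
  linarith

theorem zr_at_one {d : ℕ} (hd : 2 ≤ d) (k : ℕ) : 3 ≤ zr d 1 (k + 3) := by
  induction k with
  | zero =>
    have h1 : zr d 1 1 = 1 := zr_one hd 1
    have h2 : zr d 1 2 = 2 := by rw [zr_succ, h1, one_pow]; norm_num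
    rw [zr_succ, h2]
    have : (2 : ℝ) ^ 2 ≤ 2 ^ d := pow_le_pow_right₀ (by norm_num) hd
    linarith
  | succ k ih =>
    rw [show k + 1 + 3 = (k + 3) + 1 by ring, zr_succ]
    have : zr d 1 (k + 3) ^ 1 ≤ zr d 1 (k + 3) ^ d :=
      pow_le_pow_right₀ (by linarith) (by omega)
    rw [pow_one] at this
    linarith

/-- the parameter at which the orbit passes through `3` at a given time -/
theorem exists_x {d : ℕ} (hd : 2 ≤ d) (k : ℕ) :
    ∃ x : ℝ, rr d < x ∧ x ≤ 1 ∧ zr d x (k + 3) = 3 := by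
  have h1 := zr_rr hd (k + 3)
  have h2 := zr_at_one hd k
  obtain ⟨x, hx, hx3⟩ := intermediate_value_Icc (rr_lt_one hd).le
    (zr_cont d (k + 3)).continuousOn (show (3 : ℝ) ∈ Icc (zr d (rr d) (k + 3)) (zr d 1 (k + 3)) from
      ⟨by linarith [h1.2], h2⟩)
  refine ⟨x, lt_of_le_of_ne hx.1 ?_, hx.2, hx3⟩
  rintro rfl
  have : zr d (rr d) (k + 3) = 3 := hx3
  linarith [h1.2]

/-- a connected part of the Multibrot set which contains a point and its conjugate meets the real
axis to the left of the cusp -/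
theorem sep_real {d : ℕ} (hd : 2 ≤ d) {S : Set ℂ} (hS : S ⊆ multibrotSet d) (hc : IsPreconnected S)
    {y : ℂ} (hy : y ∈ S) (hy' : (starRingEnd ℂ) y ∈ S) : y.re - rr d ≤ Metric.diam S := by
  have h0 : (0 : ℝ) ∈ Icc (min y.im (-y.im)) (max y.im (-y.im)) := by
    rcases le_total 0 y.im with h | h
    · exact ⟨(min_le_right _ _).trans (by linarith), h.trans (le_max_left _ _)⟩
    · exact ⟨(min_le_left _ _).trans h, (show 0 ≤ -y.im by linarith).trans (le_max_right _ _)⟩
  have h1 : ∃ p ∈ S, p.im = 0 := by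
    rcases le_total y.im (-y.im) with h | h
    · have h2 := hc.intermediate_value hy hy' Complex.continuous_im.continuousOn
      obtain ⟨p, hp, hp0⟩ := h2 (show (0 : ℝ) ∈ Icc y.im ((starRingEnd ℂ) y).im by
        rw [Complex.conj_im]
        constructor <;> linarith)
      exact ⟨p, hp, hp0⟩
    · have h2 := hc.intermediate_value hy' hy Complex.continuous_im.continuousOn
      obtain ⟨p, hp, hp0⟩ := h2 (show (0 : ℝ) ∈ Icc ((starRingEnd ℂ) y).im y.im by
        rw [Complex.conj_im]
        constructor <;> linarith)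
      exact ⟨p, hp, hp0⟩
  obtain ⟨p, hp, hp0⟩ := h1
  have hpr : p.re ≤ rr d := by
    by_contra h
    push Not at h
    apply real_escape hd h
    have : ((p.re : ℝ) : ℂ) = p := by
      apply Complex.ext <;> simp [hp0]
    rw [this]
    exact hS hp
  have hb : Bornology.IsBounded S := (isCompact_multibrot hd).isBounded.subset hS
  have h2 := Metric.dist_le_diam_of_mem hb hy hp
  rw [dist_eq_norm] at h2
  have h3 := (Complex.abs_re_le_norm (y - p))
  rw [Complex.sub_re] at h3
  linarith [le_abs_self (y.re - p.re)]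

theorem conj_mem {d : ℕ} (hd : 2 ≤ d) {y : ℂ} (hy : y ∈ multibrotSet d) :
    (starRingEnd ℂ) y ∈ multibrotSet d := by
  rw [mem_multibrot_iff hd] at hy ⊢
  intro k
  rw [Pool.Agent.N228.LC.P_conj, RCLike.norm_conj]
  exact hy k

/-- the depth of a real parameter below the cusp -/
theorem depth_x {d : ℕ} (hd : 2 ≤ d) {x : ℝ} (hx : 0 < x) (hl : 1 ≤ lam d x) :
    (1 - Real.log d / ((d : ℝ) - 1)) * (Real.log (lam d x) / ((d : ℝ) - 1)) ≤ x - rr d := by
  have hdr : (2 : ℝ) ≤ d := by exact_mod_cast hd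
  have hm : 0 < (d : ℝ) - 1 := by linarith
  have hcast : ((d - 1 : ℕ) : ℝ) = (d : ℝ) - 1 := by
    rw [Nat.cast_sub (by omega)]; simp
  have hs := sr_pos d
  have h1 : x = sr d * Real.exp (Real.log (lam d x) / ((d : ℝ) - 1)) := by
    have h2 : Real.log (lam d x) = Real.log d + ((d : ℝ) - 1) * Real.log x := by
      unfold lam
      rw [Real.log_mul (by positivity) (by positivity), Real.log_pow, hcast]
    rw [h2, sr, ← Real.exp_add]
    have h3 : -(Real.log d / ((d : ℝ) - 1)) + (Real.log d + ((d : ℝ) - 1) * Real.log x) /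
        ((d : ℝ) - 1) = Real.log x := by
      field_simp
      ring
    rw [h3, Real.exp_log hx]
  have h2 : rr d ≤ sr d := by
    have : 0 < sr d ^ d := pow_pos hs d
    have : rr d = sr d - sr d ^ d := rfl
    linarith
  have h3 := Real.add_one_le_exp (Real.log (lam d x) / ((d : ℝ) - 1))
  have h4 := sr_ge d
  have h5 : 0 ≤ Real.log (lam d x) / ((d : ℝ) - 1) := div_nonneg (Real.log_nonneg hl) hm.le
  have h6 : sr d * (Real.log (lam d x) / ((d : ℝ) - 1)) ≤ x - sr d := by
    have := mul_le_mul_of_nonneg_left h3 hs.le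
    rw [← h1] at this
    linarith
  have h7 := mul_le_mul_of_nonneg_right h4 h5
  linarith

/-- **the pairs** -/
theorem pairs {d : ℕ} (hd : 2 ≤ d) {k : ℕ} (hk : 1 ≤ k) (h4 : ∀ i ≤ k, 4 ≤ LL d i) :
    ∃ y ∈ multibrotSet d, (starRingEnd ℂ) y ∈ multibrotSet d ∧
      dist y ((starRingEnd ℂ) y) ≤ 1600 / ∏ i ∈ Finset.range (k + 1), LL d i ∧
      ∀ S : Set ℂ, S ⊆ multibrotSet d → IsPreconnected S → y ∈ S → (starRingEnd ℂ) y ∈ S →
        (LL d (k + 1) - 8) / ((d : ℝ) - 1) ≤ Metric.diam S := by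
  have hdr : (2 : ℝ) ≤ d := by exact_mod_cast hd
  have hm : 0 < (d : ℝ) - 1 := by linarith
  have hpos : 0 < ∏ i ∈ Finset.range (k + 1), LL d i := by
    apply Finset.prod_pos
    intro i hi
    rw [Finset.mem_range] at hi
    linarith [h4 i (by omega)]
  have hk1 : LL d (k + 1) ≤ LL d k := by
    rw [LL_succ]
    have := Real.log_le_sub_one_of_pos (show 0 < LL d k by linarith [h4 k le_rfl])
    linarith
  have hL1 : LL d k ≤ LL d 1 := by
    have := LL_mono h4 (k - 1) (by omega)
    rwa [show k - (k - 1) = 1 by omega] at this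
  have hL2 : LL d (k + 1) ≤ LL d 2 := by
    rw [LL_succ, LL_succ d 1]
    exact Real.log_le_log (by linarith [h4 k le_rfl]) hL1
  have hlog1 : LL d 1 = Real.log d := by rw [LL_succ, LL_zero]
  rcases le_or_gt (LL d 2) 8 with hsmall | hbig
  · -- the trivial case
    have h0 : (0 : ℂ) ∈ multibrotSet d := by
      apply Pool.Agent.N228.LC.mem_of_period (q := 1) le_rfl
      rw [P_one hd]
    refine ⟨0, h0, by rwa [map_zero], ?_, ?_⟩
    · rw [map_zero, dist_self]
      positivity
    · intro S _ _ _ _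
      refine le_trans ?_ Metric.diam_nonneg
      exact div_nonpos_of_nonpos_of_nonneg (by linarith) hm.le
  · have hℓ : 2980 ≤ Real.log d := by
      have h1 : LL d 2 = Real.log (Real.log d) := by rw [LL_succ, hlog1]
      rw [h1] at hbig
      have h2 : 0 < Real.log d := by
        have := h4 1 hk
        rw [hlog1] at this
        linarith
      rw [Real.lt_log_iff_exp_lt h2] at hbig
      have h3 := Real.exp_one_gt_d9
      have h5 : Real.exp 8 = Real.exp 1 ^ 8 := by
        rw [← Real.exp_nat_mul]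
        congr 1
        norm_num
      have h6 : (2.7182818283 : ℝ) ^ 8 ≤ Real.exp 1 ^ 8 :=
        pow_le_pow_left₀ (by norm_num) h3.le 8
      have h7 : (2980 : ℝ) ≤ 2.7182818283 ^ 8 := by norm_num
      linarith
    obtain ⟨ℓ, hℓd⟩ : ∃ ℓ, ℓ = Real.log d := ⟨_, rfl⟩
    rw [← hℓd] at hℓ
    have hdl : ℓ ^ 3 / 6 ≤ d := by
      have h := Real.pow_div_factorial_le_exp ℓ (by linarith) 3
      rw [hℓd, Real.exp_log (by linarith)] at h
      rw [hℓd]
      have h5 : ((Nat.factorial 3 : ℕ) : ℝ) = 6 := by norm_num [Nat.factorial]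
      rwa [h5] at h
    obtain ⟨j, rfl⟩ : ∃ j, k = j + 1 := ⟨k - 1, by omega⟩
    obtain ⟨x, hxr, hx1, hx3⟩ := exists_x hd j
    have hx0 : 0 < x := (rr_pos hd).trans hxr
    obtain ⟨hlam, hprod⟩ := dz_LL hd hx0 hx1 h4 (by rw [show j + 1 + 2 = j + 3 by ring]; exact hx3)
    obtain ⟨Q, hQ⟩ : ∃ Q, Q = ∏ i ∈ Finset.range (j + 1 + 1), LL d i := ⟨_, rfl⟩
    rw [← hQ] at hpos hprod ⊢
    obtain ⟨r, hr⟩ : ∃ r, r = 800 / Q := ⟨_, rfl⟩
    have hr0 : 0 < r := by rw [hr]; positivity
    -- the product is large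
    have hQd : d * ℓ ≤ Q := by
      rw [hQ, Finset.prod_range_succ', Finset.prod_range_succ', LL_zero, zero_add, hlog1, ← hℓd]
      have h1 : 1 ≤ ∏ i ∈ Finset.range j, LL d (i + 1 + 1) := by
        apply Finset.one_le_prod
        intro i hi
        rw [Finset.mem_range] at hi
        linarith [h4 (i + 1 + 1) (by omega)]
      have h2 : ℓ * d ≤ (∏ i ∈ Finset.range j, LL d (i + 1 + 1)) * (ℓ * d) := by
        have : 0 ≤ ℓ * d := by positivity
        nlinarith
      linarith
    have hne : ¬ Disjoint (closedBall (x : ℂ) r) (multibrotSet d) := by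
      intro hdis
      have h1 := radius_le hd hx0 hx1 hx3 hr0 hdis
      have h2 : Q ≤ 55 * dz d x (j + 3) := hprod
      have h3 : r * Q = 800 := by rw [hr]; field_simp
      have h5 := mul_le_mul_of_nonneg_left h2 hr0.le
      linarith
    rw [Set.not_disjoint_iff] at hne
    obtain ⟨y, hyb, hyM⟩ := hne
    rw [mem_closedBall, dist_eq_norm] at hyb
    have hyre : x - r ≤ y.re := by
      have := (Complex.abs_re_le_norm (y - x)).trans hyb
      rw [Complex.sub_re, Complex.ofReal_re] at this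
      linarith [neg_abs_le (y.re - x)]
    have hyim : |y.im| ≤ r := by
      have := (Complex.abs_im_le_norm (y - x)).trans hyb
      rwa [Complex.sub_im, Complex.ofReal_im, sub_zero] at this
    refine ⟨y, hyM, conj_mem hd hyM, ?_, ?_⟩
    · rw [dist_eq_norm]
      have h1 : y - (starRingEnd ℂ) y = ((2 * y.im : ℝ) : ℂ) * Complex.I := by
        apply Complex.ext <;> simp
        ring
      rw [h1, norm_mul, Complex.norm_I, mul_one, Complex.norm_real, Real.norm_eq_abs, abs_mul,
        abs_of_pos (by norm_num : (0 : ℝ) < 2)]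
      have h2 : 1600 / Q = 2 * r := by rw [hr]; ring
      linarith
    · intro S hS hSc hy1 hy2
      have h1 := sep_real hd hS hSc hy1 hy2
      have hlam1 : 1 ≤ lam d x := by linarith [h4 (j + 1) le_rfl]
      have h2 := depth_x hd hx0 hlam1
      -- logarithm of the parameter
      have h3 : LL d (j + 1 + 1) - 1 ≤ Real.log (lam d x) := by
        have h5 := Real.log_le_log (by linarith [h4 (j + 1) le_rfl]) hlam
        rw [Real.log_div (by linarith [h4 (j + 1) le_rfl]) (by norm_num), ← LL_succ] at h5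
        linarith [Real.log_two_lt_d9]
      have hLk : LL d (j + 1 + 1) ≤ ℓ := by
        rw [hℓd, ← hlog1]
        linarith
      have hLk1 : 1 ≤ LL d (j + 1 + 1) := by
        rw [LL_succ, Real.le_log_iff_exp_le (by linarith [h4 (j + 1) le_rfl])]
        linarith [h4 (j + 1) le_rfl, Real.exp_one_lt_d9]
      obtain ⟨q, hq⟩ : ∃ q, q = ℓ / ((d : ℝ) - 1) := ⟨_, rfl⟩
      have hd6 : 2 * ℓ ^ 2 ≤ (d : ℝ) - 1 := by
        have : 400 * ℓ ^ 2 ≤ ℓ ^ 3 / 6 := by
          have : ℓ ^ 3 = ℓ * ℓ ^ 2 := by ring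
          rw [this]
          nlinarith [sq_nonneg ℓ]
        nlinarith
      have hqℓ : q * ℓ ≤ 1 / 2 := by
        rw [hq, div_mul_eq_mul_div, div_le_iff₀ hm]
        nlinarith
      have hq0 : 0 ≤ q := by rw [hq]; positivity
      have hq1 : q ≤ 1 := by nlinarith
      rw [← hℓd, ← hq] at h2
      have h5 : (1 - q) * ((LL d (j + 1 + 1) - 1) / ((d : ℝ) - 1)) ≤ x - rr d := by
        refine le_trans ?_ h2
        apply mul_le_mul_of_nonneg_left _ (by linarith)
        exact div_le_div_of_nonneg_right h3 hm.le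
      have h6 : (LL d (j + 1 + 1) - 2) / ((d : ℝ) - 1) ≤ x - rr d := by
        refine le_trans ?_ h5
        rw [← mul_div_assoc]
        apply div_le_div_of_nonneg_right _ hm.le
        nlinarith
      have h7 : r ≤ 1 / ((d : ℝ) - 1) := by
        rw [hr, div_le_div_iff₀ hpos hm]
        nlinarith
      have h8 : (LL d (j + 1 + 1) - 8) / ((d : ℝ) - 1) ≤
          (LL d (j + 1 + 1) - 2) / ((d : ℝ) - 1) - 1 / ((d : ℝ) - 1) := by
        rw [← sub_div]
        apply div_le_div_of_nonneg_right _ hm.le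
        linarith
      linarith

end Pool.Agent.H79LC
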