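import Mathlib
import Pool.Agent.H712R2.PathLog

/-! # A separation lemma in the plane (helper79)

Two connected subsets `S`, `T` of a compact set with connected complement, both containing the two
points `-a + i η` and `b + i η`, cannot pass above and below a point of the complement. -/

set_option autoImplicit false

open Complex Set Topology Filter Metric Bornology

namespace Pool.Agent.H79LC

/-- the points at distance more than `ε` -/
def DD (S : Set ℂ) (ε : ℝ) : Set ℂ := {c | ∀ s ∈ S, ε < ‖c - s‖}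

/-- continuous logarithms of `(c - y) / (c - y')` outside a neighbourhood of a connected set which
contains `y` and `y'` -/
theorem exists_log_conn {S : Set ℂ} (hS : IsPreconnected S) {ε : ℝ} (hε : 0 < ε) {y y' : ℂ}
    (hy : y ∈ S) (hy' : y' ∈ S) :
    ∃ Λ : ℂ → ℂ, ContinuousOn Λ (DD S ε) ∧
      (∀ c ∈ DD S ε, Complex.exp (Λ c) = (c - y) / (c - y')) ∧ Tendsto Λ (cobounded ℂ) (𝓝 0) := by
  have hne : ∀ s ∈ S, ∀ c ∈ DD S ε, c - s ≠ 0 := by
    intro s hs c hc h
    have := hc s hs
    rw [h, norm_zero] at this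
    linarith
  refine hS.induction₂' (fun y y' => ∃ Λ : ℂ → ℂ, ContinuousOn Λ (DD S ε) ∧
      (∀ c ∈ DD S ε, Complex.exp (Λ c) = (c - y) / (c - y')) ∧ Tendsto Λ (cobounded ℂ) (𝓝 0))
      ?_ ?_ hy hy'
  · -- close points
    have key : ∀ s ∈ S, ∀ t ∈ S, ‖s - t‖ < ε → ∃ Λ : ℂ → ℂ, ContinuousOn Λ (DD S ε) ∧
        (∀ c ∈ DD S ε, Complex.exp (Λ c) = (c - s) / (c - t)) ∧
        Tendsto Λ (cobounded ℂ) (𝓝 0) := by
      intro s hs t ht hst
      have hslit : ∀ c ∈ DD S ε, (c - s) / (c - t) ∈ slitPlane := by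
        intro c hc
        have h1 := hne t ht c hc
        have h2 : (c - s) / (c - t) = 1 + (t - s) / (c - t) := by
          field_simp
          ring
        have h3 : ‖(t - s) / (c - t)‖ < 1 := by
          rw [norm_div, div_lt_one (norm_pos_iff.2 h1), norm_sub_rev]
          exact hst.trans (hc t ht)
        rw [h2]
        left
        have h4 := (Complex.abs_re_le_norm ((t - s) / (c - t)))
        rw [Complex.add_re, Complex.one_re]
        linarith [neg_abs_le ((t - s) / (c - t)).re]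
      refine ⟨fun c => Complex.log ((c - s) / (c - t)), ?_, ?_, ?_⟩
      · apply ContinuousOn.clog _ hslit
        exact ContinuousOn.div (by fun_prop) (by fun_prop) (fun c hc => hne t ht c hc)
      · intro c hc
        exact Complex.exp_log (slitPlane_ne_zero (hslit c hc))
      · have h1 : Tendsto (fun c : ℂ => (c - s) / (c - t)) (cobounded ℂ) (𝓝 1) := by
          have h2 : Tendsto (fun c : ℂ => 1 + (t - s) * (c - t)⁻¹) (cobounded ℂ)
              (𝓝 (1 + (t - s) * 0)) := by
            apply Tendsto.const_add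
            apply Tendsto.const_mul
            apply tendsto_inv₀_cobounded.comp
            rw [← tendsto_norm_atTop_iff_cobounded]
            apply tendsto_atTop_mono (f := fun c : ℂ => ‖c‖ - ‖t‖)
            · intro c
              exact norm_sub_norm_le c t
            · exact tendsto_atTop_add_const_right _ _ tendsto_norm_cobounded_atTop
          rw [mul_zero, add_zero] at h2
          refine h2.congr' ?_
          have h3 : ∀ᶠ c : ℂ in cobounded ℂ, c ≠ t := by
            have := (tendsto_norm_cobounded_atTop (E := ℂ)).eventually (eventually_gt_atTop ‖t‖)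
            filter_upwards [this] with c hc h
            rw [h] at hc
            exact lt_irrefl _ hc
          filter_upwards [h3] with c hc
          have : c - t ≠ 0 := sub_ne_zero.2 hc
          field_simp
          ring
        have h2 : ContinuousAt Complex.log 1 := continuousAt_clog (by simp)
        have h3 := h2.tendsto.comp h1
        rw [Complex.log_one] at h3
        exact h3
    intro s hs
    have h1 : ball s ε ∈ 𝓝[S] s := mem_nhdsWithin_of_mem_nhds (ball_mem_nhds s hε)
    filter_upwards [h1, self_mem_nhdsWithin] with t ht htS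
    rw [mem_ball, dist_eq_norm] at ht
    exact ⟨key s hs t htS (by rwa [norm_sub_rev]), key t htS s hs ht⟩
  · rintro s t u hs ht hu ⟨Λ, a1, a2, a3⟩ ⟨Λ', b1, b2, b3⟩
    refine ⟨fun c => Λ c + Λ' c, a1.add b1, ?_, by simpa using a3.add b3⟩
    intro c hc
    rw [Complex.exp_add, a2 c hc, b2 c hc]
    have h1 := hne t ht c hc
    have h2 := hne u hu c hc
    field_simp

theorem pos_dist {A B : Set ℂ} (hA : IsCompact A) (hB : IsClosed B) (h : Disjoint A B) :
    ∃ δ : ℝ, 0 < δ ∧ ∀ x ∈ A, ∀ y ∈ B, δ ≤ ‖y - x‖ := by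
  obtain ⟨δ, hδ, hd⟩ := h.exists_thickenings hA hB
  refine ⟨δ, hδ, fun x hx y hy => ?_⟩
  by_contra hcon
  push Not at hcon
  refine (Set.disjoint_left.1 hd) (self_subset_thickening hδ A hx) ?_
  rw [mem_thickening_iff]
  exact ⟨y, hy, by rwa [dist_comm, dist_eq_norm]⟩

/-- **the separation lemma** -/
theorem separation {K S T : Set ℂ} (hK : IsCompact K) (hO : IsConnected Kᶜ) (hS : S ⊆ K)
    (hT : T ⊆ K) (hSc : IsPreconnected S) (hTc : IsPreconnected T) {η a b ξ σ : ℝ}
    (ha : -a < ξ) (hb : ξ < b) (hση : σ < η)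
    (h1S : (⟨-a, η⟩ : ℂ) ∈ S) (h2S : (⟨b, η⟩ : ℂ) ∈ S)
    (h1T : (⟨-a, η⟩ : ℂ) ∈ T) (h2T : (⟨b, η⟩ : ℂ) ∈ T) (hp : (⟨ξ, σ⟩ : ℂ) ∉ K)
    (hdown : ∀ t : ℝ, t ≤ σ → (⟨ξ, t⟩ : ℂ) ∉ closure S)
    (hup : ∀ t : ℝ, σ ≤ t → (⟨ξ, t⟩ : ℂ) ∉ closure T) : False := by
  obtain ⟨v, hv⟩ : ∃ v : ℝ → ℂ, v = fun t => (⟨ξ, t⟩ : ℂ) := ⟨_, rfl⟩
  have hvr : ∀ t, (v t).re = ξ := fun t => by rw [hv]
  have hvi : ∀ t, (v t).im = t := fun t => by rw [hv]
  have hvc : Continuous v := by
    have : v = fun t : ℝ => (ξ : ℂ) + t * I := by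
      funext t
      apply Complex.ext <;> simp [hvr, hvi]
    rw [this]
    fun_prop
  -- the two rays
  have hVm : IsClosed (v '' Iic σ) := by
    have : v '' Iic σ = {c : ℂ | c.re = ξ ∧ c.im ≤ σ} := by
      ext c
      constructor
      · rintro ⟨t, ht, rfl⟩
        exact ⟨hvr t, by rw [hvi]; exact ht⟩
      · rintro ⟨h1, h2⟩
        exact ⟨c.im, h2, by apply Complex.ext <;> simp [hvr, hvi, h1]⟩
    rw [this]
    exact (isClosed_eq Complex.continuous_re continuous_const).inter
      (isClosed_le Complex.continuous_im continuous_const)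
  have hVp : IsClosed (v '' Ici σ) := by
    have : v '' Ici σ = {c : ℂ | c.re = ξ ∧ σ ≤ c.im} := by
      ext c
      constructor
      · rintro ⟨t, ht, rfl⟩
        exact ⟨hvr t, by rw [hvi]; exact ht⟩
      · rintro ⟨h1, h2⟩
        exact ⟨c.im, h2, by apply Complex.ext <;> simp [hvr, hvi, h1]⟩
    rw [this]
    exact (isClosed_eq Complex.continuous_re continuous_const).inter
      (isClosed_le continuous_const Complex.continuous_im)
  have hSK : closure S ⊆ K := closure_minimal hS hK.isClosed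
  have hTK : closure T ⊆ K := closure_minimal hT hK.isClosed
  have hcS : IsCompact (closure S) := hK.of_isClosed_subset isClosed_closure hSK
  have hcT : IsCompact (closure T) := hK.of_isClosed_subset isClosed_closure hTK
  obtain ⟨δ₁, hδ₁, hd₁⟩ := pos_dist hcS hVm (by
    rw [Set.disjoint_left]
    rintro c hc ⟨t, ht, rfl⟩
    have := hdown t ht
    rw [hv] at hc
    exact this hc)
  obtain ⟨δ₂, hδ₂, hd₂⟩ := pos_dist hcT hVp (by
    rw [Set.disjoint_left]
    rintro c hc ⟨t, ht, rfl⟩
    have := hup t ht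
    rw [hv] at hc
    exact this hc)
  -- a far point
  obtain ⟨R, hR⟩ := hK.isBounded.subset_closedBall (0 : ℂ)
  obtain ⟨R₀, hR₀⟩ : ∃ R₀, R₀ = max (R + 1) (-σ) := ⟨_, rfl⟩
  have hR1 : R + 1 ≤ R₀ := by rw [hR₀]; exact le_max_left _ _
  have hR2 : -σ ≤ R₀ := by rw [hR₀]; exact le_max_right _ _
  have hfar : ∀ t ≤ -R₀, ∀ s ∈ K, 1 ≤ ‖v t - s‖ := by
    intro t ht s hs
    have h1 := hR hs
    rw [mem_closedBall_zero_iff] at h1
    have h2 := norm_sub_norm_le (v t) s
    have h3 := Complex.abs_im_le_norm (v t)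
    rw [hvi] at h3
    linarith [neg_abs_le t]
  have hq : v (-R₀) ∈ Kᶜ := by
    intro h
    have := hfar (-R₀) le_rfl _ h
    rw [sub_self, norm_zero] at this
    linarith
  have hp' : v σ ∈ Kᶜ := by rw [hv]; exact hp
  have hpath : IsPathConnected Kᶜ := (hK.isClosed.isOpen_compl.isConnected_iff_isPathConnected).1 hO
  obtain ⟨γ, hγ⟩ := hpath.joinedIn _ hp' _ hq
  have hE0 : IsCompact (range γ) := isCompact_range γ.continuous
  obtain ⟨δ₃, hδ₃, hd₃⟩ := pos_dist hE0 hK.isClosed (by
    rw [Set.disjoint_left]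
    rintro c ⟨t, rfl⟩ h
    exact hγ t h)
  obtain ⟨ε, hε⟩ : ∃ ε, ε = min (min δ₁ δ₂) (min δ₃ 1) / 2 := ⟨_, rfl⟩
  have hm0 : 0 < min (min δ₁ δ₂) (min δ₃ 1) := lt_min (lt_min hδ₁ hδ₂) (lt_min hδ₃ one_pos)
  have hε0 : 0 < ε := by rw [hε]; positivity
  have hε1 : ε < δ₁ := by
    have := (min_le_left (min δ₁ δ₂) (min δ₃ 1)).trans (min_le_left _ _)
    rw [hε]; linarith
  have hε2 : ε < δ₂ := by
    have := (min_le_left (min δ₁ δ₂) (min δ₃ 1)).trans (min_le_right _ _)
    rw [hε]; linarith
  have hε3 : ε < δ₃ := by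
    have := (min_le_right (min δ₁ δ₂) (min δ₃ 1)).trans (min_le_left _ _)
    rw [hε]; linarith
  have hε4 : ε < 1 := by
    have := (min_le_right (min δ₁ δ₂) (min δ₃ 1)).trans (min_le_right _ _)
    rw [hε]; linarith
  obtain ⟨ΛS, s1, s2, s3⟩ := exists_log_conn hSc hε0 h1S h2S
  obtain ⟨ΛT, t1, t2, t3⟩ := exists_log_conn hTc hε0 h1T h2T
  -- the domains
  have dS : ∀ t ≤ σ, v t ∈ DD S ε := fun t ht s hs =>
    hε1.trans_le (hd₁ s (subset_closure hs) _ ⟨t, ht, rfl⟩)
  have dT : ∀ t, σ ≤ t → v t ∈ DD T ε := fun t ht s hs =>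
    hε2.trans_le (hd₂ s (subset_closure hs) _ ⟨t, ht, rfl⟩)
  have dγ : ∀ c ∈ range γ, ∀ s ∈ K, ε < ‖c - s‖ := fun c hc s hs => by
    have := hd₃ c hc s hs
    rw [norm_sub_rev] at this
    linarith
  have dq : ∀ t ≤ -R₀, ∀ s ∈ K, ε < ‖v t - s‖ := fun t ht s hs => by
    have := hfar t ht s hs
    linarith
  -- limits along the rays
  have hvm : Tendsto v atBot (cobounded ℂ) := by
    rw [← tendsto_norm_atTop_iff_cobounded]
    apply tendsto_atTop_mono (f := fun t : ℝ => |t|)
    · intro t
      have := Complex.abs_im_le_norm (v t)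
      rwa [hvi] at this
    · exact tendsto_abs_atBot_atTop
  have hvp : Tendsto v atTop (cobounded ℂ) := by
    rw [← tendsto_norm_atTop_iff_cobounded]
    apply tendsto_atTop_mono (f := fun t : ℝ => |t|)
    · intro t
      have := Complex.abs_im_le_norm (v t)
      rwa [hvi] at this
    · exact tendsto_abs_atTop_atTop
  have hsm : ∀ᶠ t in atBot, ‖ΛS (v t)‖ < 1 := by
    have := (s3.comp hvm).norm
    rw [norm_zero] at this
    exact this.eventually_lt_const one_pos
  have htm : ∀ᶠ t in atBot, ‖ΛT (v t)‖ < 1 := by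
    have := (t3.comp hvm).norm
    rw [norm_zero] at this
    exact this.eventually_lt_const one_pos
  have htp : ∀ᶠ t in atTop, ‖ΛT (v t)‖ < 1 := by
    have := (t3.comp hvp).norm
    rw [norm_zero] at this
    exact this.eventually_lt_const one_pos
  obtain ⟨t₀, ⟨h01, h02⟩, h03⟩ := ((hsm.and htm).and (eventually_le_atBot (-R₀))).exists
  obtain ⟨t₁, ⟨h11, h12⟩, h13⟩ := ((htp.and (eventually_ge_atTop σ)).and
    (eventually_gt_atTop η)).exists
  have hpi := Real.pi_gt_three
  have him : ∀ {u : ℂ}, ‖u‖ < 1 → -Real.pi < u.im ∧ u.im ≤ Real.pi := by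
    intro u hu
    have := Complex.abs_im_le_norm u
    have h1 := neg_abs_le u.im
    have h2 := le_abs_self u.im
    constructor <;> linarith
  -- the function
  obtain ⟨F, hF⟩ : ∃ F : ℂ → ℂ, F = fun c => (c - (⟨-a, η⟩ : ℂ)) / (c - (⟨b, η⟩ : ℂ)) := ⟨_, rfl⟩
  have hden : ∀ t, v t - (⟨b, η⟩ : ℂ) ≠ 0 := by
    intro t h
    have := congrArg Complex.re h
    rw [Complex.sub_re, hvr, Complex.zero_re] at this
    linarith
  have hN : ∀ t, 0 < Complex.normSq (v t - (⟨b, η⟩ : ℂ)) := fun t => Complex.normSq_pos.2 (hden t)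
  have hFim : ∀ t, (F (v t)).im = (η - t) * (a + b) / Complex.normSq (v t - (⟨b, η⟩ : ℂ)) := by
    intro t
    rw [hF]
    simp only [Complex.div_im, Complex.sub_re, Complex.sub_im, hvr, hvi]
    ring
  have hFre : (F (v η)).re < 0 := by
    rw [hF]
    simp only [Complex.div_re, Complex.sub_re, Complex.sub_im, hvr, hvi, sub_self, zero_mul,
      zero_div, add_zero]
    apply div_neg_of_neg_of_pos _ (hN η)
    nlinarith
  have hFc : Continuous fun t => F (v t) := by
    rw [hF]
    exact Continuous.div (by fun_prop) (by fun_prop) hden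
  have hab : 0 < a + b := by linarith
  have hFpos : ∀ t < η, 0 < (F (v t)).im := by
    intro t ht
    rw [hFim]
    exact div_pos (mul_pos (by linarith) hab) (hN t)
  have hFneg : ∀ t, η < t → (F (v t)).im < 0 := by
    intro t ht
    rw [hFim]
    exact div_neg_of_neg_of_pos (mul_neg_of_neg_of_pos (by linarith) hab) (hN t)
  have hslm : ∀ t ≤ σ, F (v t) ∈ slitPlane := fun t ht => by
    rw [Complex.mem_slitPlane_iff]
    exact Or.inr (hFpos t (by linarith)).ne'
  have hslp : ∀ t, -F (v t) ∈ slitPlane := fun t => by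
    rw [Complex.mem_slitPlane_iff]
    rcases lt_trichotomy t η with h | h | h
    · exact Or.inr (by rw [Complex.neg_im]; linarith [hFpos t h])
    · left
      rw [h, Complex.neg_re]
      linarith
    · exact Or.inr (by rw [Complex.neg_im]; linarith [hFneg t h])
  have hexpS : ∀ c ∈ DD S ε, Complex.exp (ΛS c) = F c := fun c hc => by rw [s2 c hc, hF]
  have hexpT : ∀ c ∈ DD T ε, Complex.exp (ΛT c) = F c := fun c hc => by rw [t2 c hc, hF]
  have hσ0 : t₀ ≤ σ := by linarith
  -- first comparison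
  have c1 : ΛS (v σ) = Complex.log (F (v σ)) := by
    have h := Pool.Agent.H712R2.exp_lift_unique (S := Iic σ) isPreconnected_Iic
      (u := fun t => ΛS (v t)) (v := fun t => Complex.log (F (v t)))
      (s1.comp hvc.continuousOn fun t ht => dS t ht)
      (hFc.continuousOn.clog fun t ht => hslm t ht)
      (fun t ht => by rw [hexpS _ (dS t ht), Complex.exp_log (slitPlane_ne_zero (hslm t ht))])
      (x₀ := t₀) hσ0 (by
        apply Complex.exp_inj_of_neg_pi_lt_of_le_pi (him h01).1 (him h01).2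
          (Complex.neg_pi_lt_log_im _) (Complex.log_im_le_pi _)
        rw [hexpS _ (dS t₀ hσ0), Complex.exp_log (slitPlane_ne_zero (hslm t₀ hσ0))])
    exact h σ (mem_Iic.2 le_rfl)
  -- second comparison
  have c2 : ΛT (v σ) = Complex.log (-F (v σ)) - Real.pi * I := by
    have hex : ∀ t, Complex.exp (Complex.log (-F (v t)) - Real.pi * I) = F (v t) := by
      intro t
      rw [Complex.exp_sub, Complex.exp_log (slitPlane_ne_zero (hslp t)), Complex.exp_pi_mul_I]
      ring
    have h := Pool.Agent.H712R2.exp_lift_unique (S := Ici σ) isPreconnected_Ici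
      (u := fun t => ΛT (v t)) (v := fun t => Complex.log (-F (v t)) - Real.pi * I)
      (t1.comp hvc.continuousOn fun t ht => dT t ht)
      ((hFc.neg.continuousOn.clog fun t _ => hslp t).sub continuousOn_const)
      (fun t ht => by rw [hexpT _ (dT t ht), hex])
      (x₀ := t₁) h12 (by
        have h5 : 0 < (-F (v t₁)).im := by
          rw [Complex.neg_im]; linarith [hFneg t₁ h13]
        have h6 : (Complex.log (-F (v t₁)) - Real.pi * I).im =
            Complex.arg (-F (v t₁)) - Real.pi := by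
          simp [Complex.log_im]
        have h7 := Complex.arg_nonneg_iff.2 h5.le
        have h7' : 0 < Complex.arg (-F (v t₁)) := by
          rcases h7.lt_or_eq with h | h
          · exact h
          · exfalso
            have := (Complex.arg_eq_zero_iff.1 h.symm).2
            linarith
        have h8 := Complex.arg_le_pi (-F (v t₁))
        apply Complex.exp_inj_of_neg_pi_lt_of_le_pi (him h11).1 (him h11).2
        · rw [h6]; linarith
        · rw [h6]; linarith
        · rw [hexpT _ (dT t₁ h12), hex])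
    exact h σ (mem_Ici.2 le_rfl)
  -- third comparison
  have c3 : ΛS (v σ) = ΛT (v σ) := by
    have hE : IsPreconnected (range γ ∪ v '' Iic (-R₀)) := by
      apply IsPreconnected.union (v (-R₀)) (show v (-R₀) ∈ range γ from ⟨1, γ.target⟩)
        (show v (-R₀) ∈ v '' Iic (-R₀) from ⟨-R₀, mem_Iic.2 le_rfl, rfl⟩)
      · exact isPreconnected_range γ.continuous
      · exact isPreconnected_Iic.image _ hvc.continuousOn
    have hES : ∀ c ∈ range γ ∪ v '' Iic (-R₀), c ∈ DD S ε := by
      rintro c (hc | ⟨t, ht, rfl⟩) s hs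
      · exact dγ c hc s (hS hs)
      · exact dq t ht s (hS hs)
    have hET : ∀ c ∈ range γ ∪ v '' Iic (-R₀), c ∈ DD T ε := by
      rintro c (hc | ⟨t, ht, rfl⟩) s hs
      · exact dγ c hc s (hT hs)
      · exact dq t ht s (hT hs)
    have ht₀ : v t₀ ∈ range γ ∪ v '' Iic (-R₀) := Or.inr ⟨t₀, h03, rfl⟩
    refine Pool.Agent.H712R2.exp_lift_unique hE (s1.mono hES) (t1.mono hET)
      (fun c hc => by rw [hexpS c (hES c hc), hexpT c (hET c hc)]) ht₀ ?_ _ (Or.inl ⟨0, γ.source⟩)
    apply Complex.exp_inj_of_neg_pi_lt_of_le_pi (him h01).1 (him h01).2 (him h02).1 (him h02).2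
    rw [hexpS _ (hES _ ht₀), hexpT _ (hET _ ht₀)]
  rw [c1, c2] at c3
  have h1 := congrArg Complex.im c3
  have h2 := hFpos σ hση
  have h3 : (Complex.log (-F (v σ)) - Real.pi * I).im = Complex.arg (-F (v σ)) - Real.pi := by
    simp [Complex.log_im]
  rw [h3, Complex.log_im] at h1
  have h4 := Complex.arg_nonneg_iff.2 h2.le
  have h5 : Complex.arg (-F (v σ)) < 0 := by
    rw [Complex.arg_neg_iff, Complex.neg_im]
    linarith
  linarith

end Pool.Agent.H79LC
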