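import Mathlib
import Pool.Agent.H712R2.Par

/-! # Local inversion with explicit bounds and the function `sinh √Θ / √Θ` (helper79) -/

set_option autoImplicit false

open Complex Set Topology Filter Metric

namespace Pool.Agent.H79LC

/-- mean value inequality for a function close to a linear one -/
theorem near_linear {F F' : ℂ → ℂ} {a : ℂ} {b ρ : ℝ} (hb : 0 ≤ b)
    (hF : ∀ z ∈ closedBall (0 : ℂ) ρ, HasDerivAt F (F' z) z) (h0 : F 0 = 0)
    (hF' : ∀ z ∈ closedBall (0 : ℂ) ρ, ‖F' z - a‖ ≤ b * ‖z‖) {z : ℂ} (hz : ‖z‖ ≤ ρ) :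
    ‖F z - a * z‖ ≤ b * ‖z‖ ^ 2 := by
  have hsub : closedBall (0 : ℂ) ‖z‖ ⊆ closedBall 0 ρ := closedBall_subset_closedBall hz
  have h1 : ∀ w ∈ closedBall (0 : ℂ) ‖z‖, HasDerivWithinAt (fun w => F w - a * w) (F' w - a)
      (closedBall 0 ‖z‖) w := by
    intro w hw
    have := (hF w (hsub hw)).sub ((hasDerivAt_id' w).const_mul a)
    rw [mul_one] at this
    exact this.hasDerivWithinAt
  have h2 : ∀ w ∈ closedBall (0 : ℂ) ‖z‖, ‖F' w - a‖ ≤ b * ‖z‖ := by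
    intro w hw
    refine (hF' w (hsub hw)).trans ?_
    apply mul_le_mul_of_nonneg_left _ hb
    rwa [mem_closedBall_zero_iff] at hw
  have h3 := (convex_closedBall (0 : ℂ) ‖z‖).norm_image_sub_le_of_norm_hasDerivWithin_le h1 h2
    (x := 0) (y := z) (by simp) (by simp)
  simp only [h0, mul_zero, sub_zero] at h3
  linarith [sq ‖z‖]

/-- surjectivity of a function close to a linear one -/
theorem surj {F F' : ℂ → ℂ} {a : ℂ} {b ρ : ℝ} (ha : a ≠ 0) (hb : 0 ≤ b)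
    (hbρ : b * ρ ≤ ‖a‖ / 2) (hF : ∀ z ∈ closedBall (0 : ℂ) ρ, HasDerivAt F (F' z) z)
    (h0 : F 0 = 0) (hF' : ∀ z ∈ closedBall (0 : ℂ) ρ, ‖F' z - a‖ ≤ b * ‖z‖) {Y : ℂ}
    (hY : 2 * ‖Y‖ ≤ ‖a‖ * ρ) :
    ∃ z : ℂ, ‖z‖ ≤ 2 * ‖Y‖ / ‖a‖ ∧ ‖z‖ ≤ ρ ∧ F z = Y ∧ ‖Y - a * z‖ ≤ b * ‖z‖ ^ 2 := by
  have ha0 : 0 < ‖a‖ := norm_pos_iff.2 ha
  obtain ⟨R, hR⟩ : ∃ R, R = 2 * ‖Y‖ / ‖a‖ := ⟨_, rfl⟩
  have hRρ : R ≤ ρ := by
    rw [hR, div_le_iff₀ ha0]
    linarith
  have hR0 : 0 ≤ R := by rw [hR]; positivity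
  have hsub : closedBall (0 : ℂ) R ⊆ closedBall 0 ρ := closedBall_subset_closedBall hRρ
  obtain ⟨T, hT⟩ : ∃ T : ℂ → ℂ, T = fun z => z - (F z - Y) / a := ⟨_, rfl⟩
  have h1 : ∀ w ∈ closedBall (0 : ℂ) R, HasDerivWithinAt T (1 - F' w / a) (closedBall 0 R) w := by
    intro w hw
    rw [hT]
    exact ((hasDerivAt_id' w).sub (((hF w (hsub hw)).sub_const Y).div_const a)).hasDerivWithinAt
  have h2 : ∀ w ∈ closedBall (0 : ℂ) R, ‖1 - F' w / a‖ ≤ 1 / 2 := by
    intro w hw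
    have h3 : 1 - F' w / a = -((F' w - a) / a) := by field_simp; ring
    rw [h3, norm_neg, norm_div, div_le_iff₀ ha0]
    have h4 := hF' w (hsub hw)
    have h5 := hsub hw
    rw [mem_closedBall_zero_iff] at h5
    have := mul_le_mul_of_nonneg_left h5 hb
    linarith
  have h3 : ∀ x ∈ closedBall (0 : ℂ) R, ∀ y ∈ closedBall (0 : ℂ) R,
      ‖T y - T x‖ ≤ 1 / 2 * ‖y - x‖ := fun x hx y hy =>
    (convex_closedBall (0 : ℂ) R).norm_image_sub_le_of_norm_hasDerivWithin_le h1 h2 hx hy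
  have hm : MapsTo T (closedBall 0 R) (closedBall 0 R) := by
    intro w hw
    have h4 := h3 0 (mem_closedBall_self hR0) w hw
    rw [mem_closedBall_zero_iff] at hw ⊢
    rw [sub_zero] at h4
    have h5 : ‖T 0‖ = R / 2 := by
      rw [hT]
      simp only [h0, zero_sub, neg_div, neg_neg]
      rw [norm_div, hR]
      ring
    have h6 := norm_le_norm_add_norm_sub' (T w) (T 0)
    linarith
  have hlip : LipschitzOnWith (1 / 2 : NNReal) T (closedBall 0 R) := by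
    refine LipschitzOnWith.of_dist_le_mul fun x hx y hy => ?_
    rw [dist_eq_norm, dist_eq_norm]
    push_cast
    exact h3 y hy x hx
  have hcon : ContractingWith (1 / 2 : NNReal) (hm.restrict T _ _) := by
    refine ⟨?_, hlip.mapsToRestrict hm⟩
    rw [← NNReal.coe_lt_coe]; push_cast; norm_num
  obtain ⟨z, hz, hfix, -⟩ := ContractingWith.exists_fixedPoint' (f := T)
    (isClosed_closedBall.isComplete) hm hcon (x := 0) (mem_closedBall_self hR0)
    (edist_ne_top _ _)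
  have hzR : ‖z‖ ≤ R := by rwa [mem_closedBall_zero_iff] at hz
  have hFz : F z = Y := by
    have h4 : T z = z := hfix
    rw [hT] at h4
    simp only at h4
    have h5 : (F z - Y) / a = 0 := by linear_combination -h4
    rw [div_eq_zero_iff] at h5
    exact sub_eq_zero.1 (h5.resolve_right ha)
  refine ⟨z, by rwa [← hR], hzR.trans hRρ, hFz, ?_⟩
  have := near_linear hb hF h0 hF' (hzR.trans hRρ)
  rwa [hFz] at this

/-! ## the function -/

open Nat in
/-- `sinh √Θ / √Θ` -/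
noncomputable def SS (θ : ℂ) : ℂ := ∑' j : ℕ, θ ^ j / ((2 * j + 1)! : ℕ)

open Nat in
noncomputable def SS1 (θ : ℂ) : ℂ := ∑' j : ℕ, θ ^ j / ((2 * j + 3)! : ℕ)

open Nat in
theorem term_le (m : ℕ) (j : ℕ) {θ : ℂ} (h : ‖θ‖ ≤ 1) (hm : j ≤ m) :
    ‖θ ^ j / (m ! : ℕ)‖ ≤ 1 / (j ! : ℕ) := by
  rw [norm_div, norm_pow, Complex.norm_natCast]
  have h1 : ‖θ‖ ^ j ≤ 1 := pow_le_one₀ (norm_nonneg _) h
  have h2 : ((j ! : ℕ) : ℝ) ≤ (m ! : ℕ) := by exact_mod_cast Nat.factorial_le hm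
  have h3 : (0 : ℝ) < (j ! : ℕ) := by exact_mod_cast Nat.factorial_pos j
  apply div_le_div₀ zero_le_one h1 h3 h2

open Nat in
theorem summable_inv_fac : Summable fun j : ℕ => (1 : ℝ) / (j ! : ℕ) := by
  have := Real.summable_pow_div_factorial 1
  simpa using this

theorem SS_diff : DifferentiableOn ℂ SS (ball 0 1) := by
  apply differentiableOn_tsum_of_summable_norm summable_inv_fac _ isOpen_ball
  · intro j w hw
    rw [mem_ball_zero_iff] at hw
    exact term_le _ j hw.le (by omega)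
  · intro j
    exact (differentiable_pow j).differentiableOn.div_const _

theorem SS1_diff : DifferentiableOn ℂ SS1 (ball 0 1) := by
  apply differentiableOn_tsum_of_summable_norm summable_inv_fac _ isOpen_ball
  · intro j w hw
    rw [mem_ball_zero_iff] at hw
    exact term_le _ j hw.le (by omega)
  · intro j
    exact (differentiable_pow j).differentiableOn.div_const _

open Nat in
theorem SS_eq {θ : ℂ} (h : ‖θ‖ < 1) : SS θ = 1 + θ * SS1 θ := by
  have hs : Summable fun j : ℕ => θ ^ j / ((2 * j + 1)! : ℕ) := by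
    apply Summable.of_norm_bounded summable_inv_fac
    intro j
    exact term_le _ j h.le (by omega)
  unfold SS SS1
  rw [hs.tsum_eq_zero_add, ← tsum_mul_left]
  simp only [pow_zero, mul_zero, zero_add, Nat.factorial_one, Nat.cast_one, div_one]
  congr 1
  apply tsum_congr
  intro j
  rw [show 2 * (j + 1) + 1 = 2 * j + 3 by ring, pow_succ]
  ring

theorem SS_zero : SS 0 = 1 := by
  rw [SS_eq (by simp)]
  simp

theorem SS1_zero : SS1 0 = 1 / 6 := by
  unfold SS1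
  rw [tsum_eq_single 0]
  · norm_num [Nat.factorial]
  · intro j hj
    simp [hj]

theorem SS_sinh (κ : ℂ) : κ * SS (κ ^ 2) = Complex.sinh κ := by
  unfold SS
  rw [← (Complex.hasSum_sinh κ).tsum_eq, ← tsum_mul_left]
  apply tsum_congr
  intro j
  rw [← pow_mul, pow_succ]
  ring

theorem SS_deriv : HasDerivAt SS (1 / 6) 0 := by
  have h1 : HasDerivAt (fun θ => 1 + θ * SS1 θ) (1 / 6) 0 := by
    have h2 : HasDerivAt SS1 (deriv SS1 0) 0 :=
      (SS1_diff.differentiableAt (isOpen_ball.mem_nhds (by simp))).hasDerivAt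
    have h3 := ((hasDerivAt_id' (0 : ℂ)).mul h2).const_add 1
    rw [zero_mul, add_zero, one_mul, SS1_zero] at h3
    exact h3
  refine h1.congr_of_eventuallyEq ?_
  filter_upwards [isOpen_ball.mem_nhds (show (0 : ℂ) ∈ ball 0 1 by simp)] with θ hθ
  rw [mem_ball_zero_iff] at hθ
  exact SS_eq hθ

/-- the logarithm of `sinh √Θ / √Θ` near zero, with a Lipschitz derivative -/
theorem exists_lam : ∃ (Λ σ : ℂ → ℂ) (r B : ℝ), 0 < r ∧ 0 < B ∧ Λ 0 = 0 ∧ σ 0 = 1 / 6 ∧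
    (∀ θ ∈ ball (0 : ℂ) r, HasDerivAt Λ (σ θ) θ) ∧
    (∀ κ : ℂ, κ ^ 2 ∈ ball (0 : ℂ) r → κ * Complex.exp (Λ (κ ^ 2)) = Complex.sinh κ) ∧
    ∀ x ∈ ball (0 : ℂ) r, ∀ y ∈ ball (0 : ℂ) r, ‖σ y - σ x‖ ≤ B * ‖y - x‖ := by
  have hc : ContinuousAt SS 0 := SS_deriv.continuousAt
  have hne : ∀ᶠ θ in 𝓝 (0 : ℂ), SS θ ≠ 0 := hc.eventually_ne (by rw [SS_zero]; exact one_ne_zero)
  obtain ⟨s, hs, hs'⟩ := Metric.eventually_nhds_iff.1 hne
  obtain ⟨r₁, hr₁⟩ : ∃ r₁, r₁ = min s 1 := ⟨_, rfl⟩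
  have hr₁0 : 0 < r₁ := by rw [hr₁]; positivity
  have hr₁s : r₁ ≤ s := by rw [hr₁]; exact min_le_left _ _
  have hr₁1 : r₁ ≤ 1 := by rw [hr₁]; exact min_le_right _ _
  obtain ⟨Λ, hΛ, hΛ0, hΛe⟩ := Pool.Agent.H712R2.M.exists_log_ball (g := SS) (c := 0) hr₁0
    (SS_diff.mono (ball_subset_ball hr₁1)) (fun z hz => hs' (by
      rw [mem_ball] at hz; linarith)) 0 (by rw [Complex.exp_zero, SS_zero])
  have hσd : DifferentiableOn ℂ (deriv Λ) (ball 0 r₁) := hΛ.deriv isOpen_ball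
  have hσdd : DifferentiableOn ℂ (deriv (deriv Λ)) (ball 0 r₁) := hσd.deriv isOpen_ball
  have hK : closedBall (0 : ℂ) (r₁ / 2) ⊆ ball 0 r₁ := closedBall_subset_ball (by linarith)
  obtain ⟨B, hB⟩ := (isCompact_closedBall (0 : ℂ) (r₁ / 2)).exists_bound_of_continuousOn
    (hσdd.continuousOn.mono hK)
  refine ⟨Λ, deriv Λ, r₁ / 2, max B 1, by positivity, by positivity, hΛ0, ?_, ?_, ?_, ?_⟩
  · have h1 : HasDerivAt Λ (deriv Λ 0) 0 :=
      (hΛ.differentiableAt (isOpen_ball.mem_nhds (mem_ball_self hr₁0))).hasDerivAt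
    have h2 : HasDerivAt (fun z => Complex.exp (Λ z)) (Complex.exp (Λ 0) * deriv Λ 0) 0 := h1.cexp
    have h3 : HasDerivAt SS (Complex.exp (Λ 0) * deriv Λ 0) 0 := by
      refine h2.congr_of_eventuallyEq ?_
      filter_upwards [isOpen_ball.mem_nhds (mem_ball_self hr₁0)] with z hz
      exact (hΛe z hz).symm
    have h4 := h3.unique SS_deriv
    rwa [hΛ0, Complex.exp_zero, one_mul] at h4
  · intro θ hθ
    exact (hΛ.differentiableAt (isOpen_ball.mem_nhds (ball_subset_ball (by linarith) hθ))).hasDerivAt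
  · intro κ hκ
    rw [hΛe _ (ball_subset_ball (by linarith) hκ), SS_sinh]
  · intro x hx y hy
    have h1 : ∀ w ∈ closedBall (0 : ℂ) (r₁ / 2), HasDerivWithinAt (deriv Λ) (deriv (deriv Λ) w)
        (closedBall 0 (r₁ / 2)) w := fun w hw =>
      ((hσd.differentiableAt (isOpen_ball.mem_nhds (hK hw))).hasDerivAt).hasDerivWithinAt
    have h2 := (convex_closedBall (0 : ℂ) (r₁ / 2)).norm_image_sub_le_of_norm_hasDerivWithin_le h1
      hB (ball_subset_closedBall hx) (ball_subset_closedBall hy)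
    exact h2.trans (mul_le_mul_of_nonneg_right (le_max_left _ _) (norm_nonneg _))

end Pool.Agent.H79LC
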