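import Mathlib
import Pool.Prelude.Def_F_c31e40fa
import Pool.Agent.H79LC.B2
import Pool.Agent.TH363.CD.Uniq

/-! # The components of period one and two at their common boundary point (helper79)

`A ^ (d - 1) = - 1 / d` is the fixed point of multiplier `-1`, `A (1 + 1 / d)` its parameter. In the
coordinate `ζ`, `c = A (1 + 1 / d) (1 + ζ / d)`, the regions `C |ζ| ^ 2 < - Re ζ` and
`C |ζ| ^ 2 < Re ζ` belong to the Multibrot set near zero, with constants not depending on `d`. -/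

set_option autoImplicit false

open Complex Set Topology Filter Metric N62a1eb23

namespace Pool.Agent.H79LC

theorem attr_one {d : ℕ} {c z : ℂ} (hz : z ^ d + c = z)
    (hm : ‖(d : ℂ) * z ^ (d - 1)‖ < 1) : IsAttractingCycle (Pool.Agent.W747.MB.f d c) 1 z := by
  have h1 : HasDerivAt (Pool.Agent.W747.MB.f d c) ((d : ℂ) * z ^ (d - 1)) z :=
    (hasDerivAt_pow d z).add_const c
  refine ⟨one_pos, ?_, ?_, ?_⟩
  · show (Pool.Agent.W747.MB.f d c)^[1] z = z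
    rw [Function.iterate_one]
    exact hz
  · rw [Function.iterate_one]
    exact h1.differentiableAt
  · rw [Function.iterate_one, h1.deriv]
    exact hm

theorem attr_two {d : ℕ} {c z w : ℂ} (hz : z ^ d + c = w) (hw : w ^ d + c = z)
    (hm : ‖((d : ℂ) * w ^ (d - 1)) * ((d : ℂ) * z ^ (d - 1))‖ < 1) :
    IsAttractingCycle (Pool.Agent.W747.MB.f d c) 2 z := by
  have h1 : HasDerivAt (Pool.Agent.W747.MB.f d c) ((d : ℂ) * z ^ (d - 1)) z :=
    (hasDerivAt_pow d z).add_const c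
  have hz' : Pool.Agent.W747.MB.f d c z = w := hz
  have h2 : HasDerivAt (Pool.Agent.W747.MB.f d c) ((d : ℂ) * w ^ (d - 1))
      (Pool.Agent.W747.MB.f d c z) := by
    rw [hz']
    exact (hasDerivAt_pow d w).add_const c
  have h3 : HasDerivAt ((Pool.Agent.W747.MB.f d c)^[2])
      (((d : ℂ) * w ^ (d - 1)) * ((d : ℂ) * z ^ (d - 1))) z := by
    have := h2.comp z h1
    exact this
  refine ⟨two_pos, ?_, h3.differentiableAt, ?_⟩
  · show (Pool.Agent.W747.MB.f d c)^[2] z = z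
    rw [Function.iterate_succ_apply, Function.iterate_one, hz']
    exact hw
  · rw [h3.deriv]
    exact hm

/-- the main component -/
theorem region_one {d : ℕ} (hd : 2 ≤ d) {A : ℂ} (hA : A ^ (d - 1) = -1 / d) {ζ : ℂ}
    (hζ : ‖ζ‖ ≤ 1 / 14) (hre : 14 * ‖ζ‖ ^ 2 < -ζ.re) :
    ∃ z, IsAttractingCycle (Pool.Agent.W747.MB.f d (A * (1 + 1 / d) * (1 + ζ / d))) 1 z := by
  have hdr : (2 : ℝ) ≤ d := by exact_mod_cast hd
  have hdC : (d : ℂ) ≠ 0 := by exact_mod_cast (show d ≠ 0 by omega)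
  have hd1 : (d : ℂ) + 1 ≠ 0 := by exact_mod_cast (show d + 1 ≠ 0 by omega)
  have hdm : (d : ℂ) - 1 ≠ 0 := by
    intro h
    have h1 : (d : ℂ) = 1 := sub_eq_zero.1 h
    have h2 : d = 1 := by exact_mod_cast h1
    omega
  have hcast : ((d - 1 : ℕ) : ℂ) = (d : ℂ) - 1 := by
    rw [Nat.cast_sub (by omega)]; simp
  obtain ⟨a, ha⟩ : ∃ a : ℝ, a = (d : ℝ) ^ 2 / (((d : ℝ) - 1) * (d + 1)) := ⟨_, rfl⟩
  have hden : 0 < ((d : ℝ) - 1) * (d + 1) := mul_pos (by linarith) (by linarith)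
  have ha1 : 1 ≤ a := by
    rw [ha, le_div_iff₀ hden]
    nlinarith
  have ha2 : a ≤ 4 / 3 := by
    rw [ha, div_le_iff₀ hden]
    nlinarith
  obtain ⟨F, hF⟩ : ∃ F : ℂ → ℂ, F = fun u => (d : ℂ) *
      (Complex.exp (u / ((d : ℂ) - 1)) * (d + Complex.exp u) / (d + 1) - 1) := ⟨_, rfl⟩
  obtain ⟨F', hF'⟩ : ∃ F' : ℂ → ℂ, F' = fun u => (a : ℂ) *
      (Complex.exp (u / ((d : ℂ) - 1)) * (1 + Complex.exp u)) := ⟨_, rfl⟩
  have hder : ∀ u, HasDerivAt F (F' u) u := by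
    intro u
    have h1 : HasDerivAt (fun u : ℂ => Complex.exp (u / ((d : ℂ) - 1)))
        (Complex.exp (u / ((d : ℂ) - 1)) * (1 / ((d : ℂ) - 1))) u :=
      ((hasDerivAt_id' u).div_const _).cexp
    have h2 : HasDerivAt (fun u : ℂ => (d : ℂ) + Complex.exp u) (Complex.exp u) u :=
      (Complex.hasDerivAt_exp u).const_add _
    have h3 := ((((h1.mul h2).div_const ((d : ℂ) + 1)).sub_const 1).const_mul (d : ℂ))
    rw [hF]
    refine HasDerivAt.congr_deriv h3 ?_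
    rw [hF', ha]
    push_cast
    field_simp
    ring
  have hF0 : F 0 = 0 := by
    rw [hF]
    simp only [zero_div, Complex.exp_zero, one_mul]
    field_simp
    ring
  have hbd : ∀ u ∈ closedBall (0 : ℂ) (1 / 14), ‖F' u - ((2 * a : ℝ) : ℂ)‖ ≤ 14 * ‖u‖ := by
    intro u hu
    rw [mem_closedBall_zero_iff] at hu
    have e1 := Complex.norm_exp_sub_one_le (x := u) (by linarith)
    have hud : ‖u / ((d : ℂ) - 1)‖ ≤ ‖u‖ := by
      rw [norm_div]
      apply div_le_self (norm_nonneg _)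
      have : ((d : ℂ) - 1) = (((d : ℝ) - 1 : ℝ) : ℂ) := by push_cast; ring
      rw [this, Complex.norm_real, Real.norm_of_nonneg (by linarith)]
      linarith
    have e2 := Complex.norm_exp_sub_one_le (x := u / ((d : ℂ) - 1)) (by linarith)
    have e3 : F' u - ((2 * a : ℝ) : ℂ) = (a : ℂ) * ((Complex.exp (u / ((d : ℂ) - 1)) - 1) *
        (2 + (Complex.exp u - 1)) + (Complex.exp u - 1)) := by
      rw [hF']
      push_cast
      ring
    rw [e3, norm_mul, Complex.norm_real, Real.norm_of_nonneg (by linarith)]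
    have e4 : ‖(Complex.exp (u / ((d : ℂ) - 1)) - 1) *
        (2 + (Complex.exp u - 1)) + (Complex.exp u - 1)‖ ≤ 2 * ‖u‖ * (2 + 2 * (1 / 14)) +
          2 * ‖u‖ := by
      refine (norm_add_le _ _).trans (add_le_add ?_ e1)
      rw [norm_mul]
      apply mul_le_mul (e2.trans (by linarith)) _ (norm_nonneg _) (by positivity)
      refine (norm_add_le _ _).trans ?_
      rw [Complex.norm_ofNat]
      linarith
    calc a * ‖(Complex.exp (u / ((d : ℂ) - 1)) - 1) * (2 + (Complex.exp u - 1)) +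
          (Complex.exp u - 1)‖ ≤ 4 / 3 * (2 * ‖u‖ * (2 + 2 * (1 / 14)) + 2 * ‖u‖) :=
          mul_le_mul ha2 e4 (norm_nonneg _) (by norm_num)
      _ ≤ 14 * ‖u‖ := by nlinarith [norm_nonneg u]
  have hna : ‖((2 * a : ℝ) : ℂ)‖ = 2 * a := by
    rw [Complex.norm_real, Real.norm_of_nonneg (by linarith)]
  obtain ⟨u, hu1, hu2, hu3, hu4⟩ := surj (F := F) (F' := F') (a := ((2 * a : ℝ) : ℂ)) (b := 14)
    (ρ := 1 / 14) (by
      rw [Complex.ofReal_ne_zero]; linarith) (by norm_num) (by rw [hna]; linarith)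
    (fun z _ => hder z) hF0 hbd (Y := ζ) (by rw [hna]; linarith)
  rw [hna] at hu1
  have hu5 : ‖u‖ ≤ ‖ζ‖ := by
    refine hu1.trans ?_
    rw [div_le_iff₀ (by linarith)]
    nlinarith [norm_nonneg ζ]
  have hure : u.re < 0 := by
    have h1 := Complex.abs_re_le_norm (ζ - ((2 * a : ℝ) : ℂ) * u)
    rw [Complex.sub_re, Complex.re_ofReal_mul] at h1
    have h2 := neg_abs_le (ζ.re - 2 * a * u.re)
    have h3 : ‖u‖ ^ 2 ≤ ‖ζ‖ ^ 2 := pow_le_pow_left₀ (norm_nonneg _) hu5 2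
    by_contra hcon
    push Not at hcon
    have : 0 ≤ 2 * a * u.re := by positivity
    linarith
  -- the fixed point
  obtain ⟨E, hE⟩ : ∃ E, E = Complex.exp (u / ((d : ℂ) - 1)) := ⟨_, rfl⟩
  have hEp : E ^ (d - 1) = Complex.exp u := by
    rw [hE, ← Complex.exp_nat_mul, hcast]
    congr 1
    field_simp
  have hαp : (A * E) ^ (d - 1) = -Complex.exp u / d := by
    rw [mul_pow, hA, hEp]
    ring
  have hαd : (A * E) ^ d = -Complex.exp u / d * (A * E) := by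
    rw [← hαp, ← pow_succ]
    congr 1
    omega
  have hζ' : 1 + ζ / d = E * (d + Complex.exp u) / (d + 1) := by
    rw [← hu3, hF]
    beta_reduce
    rw [← hE]
    field_simp
    ring
  refine ⟨A * E, ?_⟩
  apply attr_one
  · rw [hαd, hζ']
    field_simp
    ring
  · rw [hαp]
    have : (d : ℂ) * (-Complex.exp u / d) = -Complex.exp u := by field_simp
    rw [this, norm_neg, Complex.norm_exp, Real.exp_lt_one_iff]
    exact hure

theorem sinh_id1 (κ δ : ℂ) : -(Complex.sinh δ * Complex.exp (-κ)) + Complex.sinh (κ + δ) =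
    Complex.sinh κ * Complex.exp δ := by
  rw [Complex.sinh_add, ← Complex.cosh_sub_sinh, ← Complex.cosh_add_sinh]
  ring

theorem sinh_id2 (κ δ : ℂ) : -(Complex.sinh δ * Complex.exp κ) + Complex.sinh (κ + δ) =
    Complex.sinh κ * Complex.exp (-δ) := by
  rw [Complex.sinh_add, ← Complex.cosh_sub_sinh, ← Complex.cosh_add_sinh]
  ring

/-- the two cycle of the parameter given by `κ` -/
theorem cycle_two {d : ℕ} (hd : 2 ≤ d) {A κ l1 l2 l3 c : ℂ} (hA : A ^ (d - 1) = -1 / d)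
    (hκ : κ ≠ 0) (h1 : κ * Complex.exp l1 = Complex.sinh κ)
    (h2 : κ / d * Complex.exp l2 = Complex.sinh (κ / d))
    (h3 : ((1 + 1 / d) * κ) * Complex.exp l3 = Complex.sinh ((1 + 1 / d) * κ))
    (hc : c = A * (1 + 1 / d) * Complex.exp ((l2 - l1) / ((d : ℂ) - 1) + (l3 - l1)))
    (hre : (l2 - l1).re < 0) :
    ∃ z, Pool.Agent.W747.MB.f d c z ≠ z ∧ IsAttractingCycle (Pool.Agent.W747.MB.f d c) 2 z := by
  have hdC : (d : ℂ) ≠ 0 := by exact_mod_cast (show d ≠ 0 by omega)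
  have hdm : (d : ℂ) - 1 ≠ 0 := by
    intro h
    have h1 : (d : ℂ) = 1 := sub_eq_zero.1 h
    have h2 : d = 1 := by exact_mod_cast h1
    omega
  have hcast : ((d - 1 : ℕ) : ℂ) = (d : ℂ) - 1 := by
    rw [Nat.cast_sub (by omega)]; simp
  have hsk : Complex.sinh κ ≠ 0 := by
    rw [← h1]
    exact mul_ne_zero hκ (Complex.exp_ne_zero _)
  obtain ⟨m, hm⟩ : ∃ m, m = A * Complex.exp ((l2 - l1) / ((d : ℂ) - 1)) := ⟨_, rfl⟩
  have hmp : m ^ (d - 1) = -Complex.exp (l2 - l1) / d := by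
    rw [hm, mul_pow, hA, ← Complex.exp_nat_mul, hcast, mul_div_cancel₀ _ hdm]
    ring
  have hmp2 : m ^ (d - 1) * Complex.sinh κ = -Complex.sinh (κ / d) := by
    rw [hmp, ← h1, ← h2, Complex.exp_sub]
    have := Complex.exp_ne_zero l1
    field_simp
  have hmd : ∀ w : ℂ, (m * w) ^ d = m * (m ^ (d - 1) * w ^ d) := by
    intro w
    rw [mul_pow]
    have : m ^ d = m * m ^ (d - 1) := by
      rw [← pow_succ']
      congr 1
      omega
    rw [this]; ring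
  have hcm : c * Complex.sinh κ = m * Complex.sinh (κ + κ / d) := by
    have e1 : κ + κ / d = (1 + 1 / d) * κ := by ring
    rw [e1, ← h3, hc, hm, Complex.exp_add, Complex.exp_sub l3, ← h1]
    have := Complex.exp_ne_zero l1
    field_simp
  have hE1 : ∀ s : ℂ, Complex.exp (s / d) ^ d = Complex.exp s := by
    intro s
    rw [← Complex.exp_nat_mul]
    congr 1
    field_simp
  have hz : (m * Complex.exp (-κ / d)) ^ d + c = m * Complex.exp (κ / d) := by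
    apply mul_right_cancel₀ hsk
    rw [hmd, hE1, add_mul, hcm]
    have := sinh_id1 κ (κ / d)
    calc m * (m ^ (d - 1) * Complex.exp (-κ)) * Complex.sinh κ + m * Complex.sinh (κ + κ / d)
        = m * ((m ^ (d - 1) * Complex.sinh κ) * Complex.exp (-κ) +
          Complex.sinh (κ + κ / d)) := by ring
      _ = m * (-(Complex.sinh (κ / d) * Complex.exp (-κ)) + Complex.sinh (κ + κ / d)) := by
          rw [hmp2]; ring
      _ = m * Complex.exp (κ / d) * Complex.sinh κ := by rw [this]; ring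
  have hw : (m * Complex.exp (κ / d)) ^ d + c = m * Complex.exp (-κ / d) := by
    apply mul_right_cancel₀ hsk
    rw [hmd, hE1, add_mul, hcm]
    have := sinh_id2 κ (κ / d)
    calc m * (m ^ (d - 1) * Complex.exp κ) * Complex.sinh κ + m * Complex.sinh (κ + κ / d)
        = m * ((m ^ (d - 1) * Complex.sinh κ) * Complex.exp κ +
          Complex.sinh (κ + κ / d)) := by ring
      _ = m * (-(Complex.sinh (κ / d) * Complex.exp κ) + Complex.sinh (κ + κ / d)) := by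
          rw [hmp2]; ring
      _ = m * Complex.exp (-κ / d) * Complex.sinh κ := by rw [this, neg_div]; ring
  have hA0 : A ≠ 0 := by
    rintro rfl
    rw [zero_pow (by omega)] at hA
    have := (div_ne_zero (neg_ne_zero.2 (one_ne_zero (α := ℂ))) hdC)
    exact this hA.symm
  have hm0 : m ≠ 0 := by
    rw [hm]
    exact mul_ne_zero hA0 (Complex.exp_ne_zero _)
  refine ⟨m * Complex.exp (-κ / d), ?_, ?_⟩
  · intro h
    have h4 : m * Complex.exp (κ / d) = m * Complex.exp (-κ / d) := by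
      rw [← hz]
      exact h
    have h5 := mul_left_cancel₀ hm0 h4
    have h6 : Complex.sinh (κ / d) = 0 := by
      rw [Complex.sinh, h5, ← neg_div, sub_self, zero_div]
    rw [← h2] at h6
    exact mul_ne_zero (div_ne_zero hκ hdC) (Complex.exp_ne_zero _) h6
  apply attr_two hz hw
  have hprod : ((d : ℂ) * (m * Complex.exp (κ / d)) ^ (d - 1)) *
      ((d : ℂ) * (m * Complex.exp (-κ / d)) ^ (d - 1)) = Complex.exp (2 * (l2 - l1)) := by
    have e1 : Complex.exp (κ / d) * Complex.exp (-κ / d) = 1 := by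
      rw [← Complex.exp_add, ← Complex.exp_zero]
      congr 1
      ring
    have e2 : ((d : ℂ) * (m * Complex.exp (κ / d)) ^ (d - 1)) *
        ((d : ℂ) * (m * Complex.exp (-κ / d)) ^ (d - 1)) =
        ((d : ℂ) * m ^ (d - 1)) ^ 2 * (Complex.exp (κ / d) * Complex.exp (-κ / d)) ^ (d - 1) := by
      rw [mul_pow, mul_pow, mul_pow (Complex.exp (κ / d))]
      ring
    rw [e2, e1, one_pow, mul_one, hmp, two_mul, Complex.exp_add]
    field_simp
  rw [hprod, Complex.norm_exp, Real.exp_lt_one_iff]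
  have : (2 * (l2 - l1)).re = 2 * (l2 - l1).re := by
    simp
  rw [this]
  linarith

/-- the component of period two -/
theorem region_two : ∃ r C : ℝ, 0 < r ∧ 0 < C ∧ ∀ d : ℕ, 2 ≤ d → ∀ A : ℂ, A ^ (d - 1) = -1 / d →
    ∀ ζ : ℂ, ‖ζ‖ ≤ r → C * ‖ζ‖ ^ 2 < ζ.re →
      ∃ z, Pool.Agent.W747.MB.f d (A * (1 + 1 / d) * (1 + ζ / d)) z ≠ z ∧
        IsAttractingCycle (Pool.Agent.W747.MB.f d (A * (1 + 1 / d) * (1 + ζ / d))) 2 z := by
  obtain ⟨Λ, σ, r₀, B, hr₀, hB, hΛ0, hσ0, hΛ, hsinh, hlip⟩ := exists_lam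
  have hσ : ∀ x ∈ ball (0 : ℂ) r₀, ‖σ x - 1 / 6‖ ≤ B * ‖x‖ := by
    intro x hx
    have := hlip 0 (mem_ball_self hr₀) x hx
    rwa [hσ0, sub_zero] at this
  obtain ⟨ρ, hρ⟩ : ∃ ρ, ρ = min (r₀ / 3) (1 / (168 * B)) := ⟨_, rfl⟩
  have hρ0 : 0 < ρ := by rw [hρ]; positivity
  have hρ1 : ρ ≤ r₀ / 3 := by rw [hρ]; exact min_le_left _ _
  have hρ2 : ρ ≤ 1 / (168 * B) := by rw [hρ]; exact min_le_right _ _
  rw [le_div_iff₀ (by positivity)] at hρ2
  have hΛ2 : ∀ x : ℂ, ‖x‖ ≤ ρ → ‖Λ x - 1 / 6 * x‖ ≤ B * ‖x‖ ^ 2 := by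
    intro x hx
    apply near_linear hB.le (F := Λ) (F' := σ) (a := 1 / 6) (ρ := ρ) _ hΛ0 _ hx
    · intro z hz
      apply hΛ
      rw [mem_closedBall_zero_iff] at hz
      rw [mem_ball_zero_iff]
      linarith
    · intro z hz
      apply hσ
      rw [mem_closedBall_zero_iff] at hz
      rw [mem_ball_zero_iff]
      linarith
  refine ⟨min (1 / 2) (ρ / 24), 12288 * B + 1, by positivity, by positivity, ?_⟩
  intro d hd A hA ζ hζ hre
  have hζ1 : ‖ζ‖ ≤ 1 / 2 := hζ.trans (min_le_left _ _)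
  have hζ2 : ‖ζ‖ ≤ ρ / 24 := hζ.trans (min_le_right _ _)
  have hdr : (2 : ℝ) ≤ d := by exact_mod_cast hd
  have hdC : (d : ℂ) ≠ 0 := by exact_mod_cast (show d ≠ 0 by omega)
  have hdm : (d : ℂ) - 1 ≠ 0 := by
    intro h
    have h1 : (d : ℂ) = 1 := sub_eq_zero.1 h
    have h2 : d = 1 := by exact_mod_cast h1
    omega
  have hn0 := norm_nonneg ζ
  -- the logarithmic coordinate
  have hζd : ‖ζ / d‖ = ‖ζ‖ / d := by rw [norm_div, Complex.norm_natCast]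
  have hζd2 : ‖ζ / d‖ ≤ 1 / 4 := by
    rw [hζd, div_le_iff₀ (by linarith)]
    linarith
  have hslit : 1 + ζ / d ≠ 0 := by
    intro h
    have : ζ / d = -1 := by linear_combination h
    rw [this, norm_neg, norm_one] at hζd2
    norm_num at hζd2
  obtain ⟨Y, hY⟩ : ∃ Y, Y = (d : ℂ) * Complex.log (1 + ζ / d) := ⟨_, rfl⟩
  have hYe : Complex.exp (Y / d) = 1 + ζ / d := by
    rw [hY, mul_div_cancel_left₀ _ hdC, Complex.exp_log hslit]
  have hYζ : ‖Y - ζ‖ ≤ ‖ζ‖ ^ 2 := by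
    have h1 := Complex.norm_log_one_add_sub_self_le (z := ζ / d) (by linarith)
    have h2 : (1 - ‖ζ / (d : ℂ)‖)⁻¹ ≤ 2 := by
      rw [inv_le_comm₀ (by linarith) (by norm_num)]
      linarith
    have h3 : ‖Complex.log (1 + ζ / d) - ζ / d‖ ≤ ‖ζ / (d : ℂ)‖ ^ 2 := by
      refine h1.trans ?_
      nlinarith [sq_nonneg ‖ζ / (d : ℂ)‖]
    have h4 : Y - ζ = d * (Complex.log (1 + ζ / d) - ζ / d) := by
      rw [hY]; field_simp
    rw [h4, norm_mul, Complex.norm_natCast]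
    rw [hζd] at h3
    have h5 : (d : ℝ) * (‖ζ‖ / d) ^ 2 = ‖ζ‖ ^ 2 / d := by field_simp
    have h6 : ‖ζ‖ ^ 2 / d ≤ ‖ζ‖ ^ 2 := div_le_self (by positivity) (by linarith)
    have h7 := mul_le_mul_of_nonneg_left h3 (show (0 : ℝ) ≤ d by linarith)
    linarith
  have hYn : ‖Y‖ ≤ 2 * ‖ζ‖ := by
    have h1 := norm_le_norm_add_norm_sub' Y ζ
    nlinarith
  have hYre : ζ.re - ‖ζ‖ ^ 2 ≤ Y.re := by
    have h1 := (Complex.abs_re_le_norm (Y - ζ)).trans hYζ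
    rw [Complex.sub_re] at h1
    linarith [neg_abs_le (Y.re - ζ.re)]
  -- the function
  obtain ⟨q, hq⟩ : ∃ q : ℝ, q = 1 + 1 / d := ⟨_, rfl⟩
  have hq1 : 1 ≤ q := by rw [hq]; have : 0 ≤ 1 / (d : ℝ) := by positivity
                         linarith
  have hq2 : q ≤ 3 / 2 := by
    rw [hq]
    have : 1 / (d : ℝ) ≤ 1 / 2 := one_div_le_one_div_of_le (by norm_num) hdr
    linarith
  have hq3 : (d : ℝ) * (q ^ 2 - 1) ≤ 3 := by
    have : (d : ℝ) * (q ^ 2 - 1) = 2 + 1 / d := by rw [hq]; field_simp; ring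
    rw [this]
    have : 1 / (d : ℝ) ≤ 1 / 2 := one_div_le_one_div_of_le (by norm_num) hdr
    linarith
  have hqq : q ^ 2 ≤ 9 / 4 := by nlinarith
  have hq1' : 1 ≤ q ^ 2 := by nlinarith
  obtain ⟨e, he⟩ : ∃ e : ℝ, e = d / ((d : ℝ) - 1) := ⟨_, rfl⟩
  have he0 : 0 ≤ e := by rw [he]; exact div_nonneg (by linarith) (by linarith)
  have he2 : e ≤ 2 := by
    rw [he, div_le_iff₀ (by linarith)]
    linarith
  obtain ⟨g, hg⟩ : ∃ g : ℝ, g = 1 / (d : ℝ) ^ 2 := ⟨_, rfl⟩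
  have hg0 : 0 ≤ g := by rw [hg]; positivity
  have hg1 : g ≤ 1 / 4 := by
    rw [hg]
    apply one_div_le_one_div_of_le (by norm_num)
    nlinarith
  have hconst : e * (g - 1) + d * (q ^ 2 - 1) = 1 := by
    rw [he, hg, hq]
    have : (d : ℝ) - 1 ≠ 0 := by linarith
    field_simp
    ring
  obtain ⟨F, hF⟩ : ∃ F : ℂ → ℂ, F = fun θ => (e : ℂ) * (Λ ((g : ℂ) * θ) - Λ θ) +
      (d : ℂ) * (Λ (((q ^ 2 : ℝ) : ℂ) * θ) - Λ θ) := ⟨_, rfl⟩
  obtain ⟨F', hF'⟩ : ∃ F' : ℂ → ℂ, F' = fun θ => (e : ℂ) * (σ ((g : ℂ) * θ) * g - σ θ) +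
      (d : ℂ) * (σ (((q ^ 2 : ℝ) : ℂ) * θ) * ((q ^ 2 : ℝ) : ℂ) - σ θ) := ⟨_, rfl⟩
  have hin1 : ∀ θ : ℂ, ‖θ‖ ≤ ρ → θ ∈ ball (0 : ℂ) r₀ := fun θ h => by
    rw [mem_ball_zero_iff]; linarith
  have hin2 : ∀ θ : ℂ, ‖θ‖ ≤ ρ → (g : ℂ) * θ ∈ ball (0 : ℂ) r₀ := fun θ h => by
    rw [mem_ball_zero_iff, norm_mul, Complex.norm_real, Real.norm_of_nonneg hg0]
    nlinarith [norm_nonneg θ]
  have hin3 : ∀ θ : ℂ, ‖θ‖ ≤ ρ → ((q ^ 2 : ℝ) : ℂ) * θ ∈ ball (0 : ℂ) r₀ := fun θ h => by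
    rw [mem_ball_zero_iff, norm_mul, Complex.norm_real, Real.norm_of_nonneg (by positivity)]
    nlinarith [norm_nonneg θ]
  have hlin : ∀ (s : ℂ) (θ : ℂ), HasDerivAt (fun θ => s * θ) s θ := fun s θ => by
    simpa using (hasDerivAt_id' θ).const_mul s
  have hder : ∀ θ ∈ closedBall (0 : ℂ) ρ, HasDerivAt F (F' θ) θ := by
    intro θ hθ
    rw [mem_closedBall_zero_iff] at hθ
    have h1 : HasDerivAt (fun θ => Λ ((g : ℂ) * θ)) (σ ((g : ℂ) * θ) * g) θ :=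
      (hΛ _ (hin2 θ hθ)).comp θ (hlin (g : ℂ) θ)
    have h2 : HasDerivAt (fun θ => Λ (((q ^ 2 : ℝ) : ℂ) * θ))
        (σ (((q ^ 2 : ℝ) : ℂ) * θ) * ((q ^ 2 : ℝ) : ℂ)) θ :=
      (hΛ _ (hin3 θ hθ)).comp θ (hlin ((q ^ 2 : ℝ) : ℂ) θ)
    have h3 := hΛ θ (hin1 θ hθ)
    rw [hF, hF']
    exact ((h1.sub h3).const_mul (e : ℂ)).add ((h2.sub h3).const_mul (d : ℂ))
  have hF0 : F 0 = 0 := by
    rw [hF]
    simp [hΛ0]
  have hbd : ∀ θ ∈ closedBall (0 : ℂ) ρ, ‖F' θ - 1 / 6‖ ≤ 14 * B * ‖θ‖ := by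
    intro θ hθ
    rw [mem_closedBall_zero_iff] at hθ
    obtain ⟨s1, hs1⟩ : ∃ s1, s1 = σ ((g : ℂ) * θ) - 1 / 6 := ⟨_, rfl⟩
    obtain ⟨s2, hs2⟩ : ∃ s2, s2 = σ θ - 1 / 6 := ⟨_, rfl⟩
    obtain ⟨s3, hs3⟩ : ∃ s3, s3 = σ (((q ^ 2 : ℝ) : ℂ) * θ) - 1 / 6 := ⟨_, rfl⟩
    have b1 := hσ _ (hin2 θ hθ)
    have b2 := hσ _ (hin1 θ hθ)
    have b3 := hσ _ (hin3 θ hθ)
    rw [← hs1, norm_mul, Complex.norm_real, Real.norm_of_nonneg hg0] at b1
    rw [← hs2] at b2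
    rw [← hs3, norm_mul, Complex.norm_real, Real.norm_of_nonneg (by positivity)] at b3
    have b4 := hlip θ (hin1 θ hθ) _ (hin3 θ hθ)
    have e4 : ((q ^ 2 : ℝ) : ℂ) * θ - θ = ((q ^ 2 - 1 : ℝ) : ℂ) * θ := by push_cast; ring
    rw [e4, norm_mul, Complex.norm_real, Real.norm_of_nonneg (by linarith)] at b4
    obtain ⟨s4, hs4⟩ : ∃ s4, s4 = σ (((q ^ 2 : ℝ) : ℂ) * θ) - σ θ := ⟨_, rfl⟩
    rw [← hs4] at b4
    have hc' : (e : ℂ) * (g - 1) + d * (((q ^ 2 : ℝ) : ℂ) - 1) = 1 := by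
      have := congrArg (fun t : ℝ => (t : ℂ)) hconst
      push_cast at this ⊢
      exact this
    have e1 : F' θ - 1 / 6 = (e : ℂ) * (g * s1 - s2) + (d * s4 +
        ((d : ℂ) * (((q ^ 2 : ℝ) : ℂ) - 1)) * s3) := by
      rw [hF', hs1, hs2, hs3, hs4]
      linear_combination (1 / 6) * hc'
    have n1 : ‖(e : ℂ) * (g * s1 - s2)‖ ≤ 4 * B * ‖θ‖ := by
      rw [norm_mul, Complex.norm_real, Real.norm_of_nonneg he0]
      have h1 : ‖(g : ℂ) * s1 - s2‖ ≤ 2 * (B * ‖θ‖) := by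
        refine (norm_sub_le _ _).trans ?_
        rw [norm_mul, Complex.norm_real, Real.norm_of_nonneg hg0]
        have h2 : ‖s1‖ ≤ B * ‖θ‖ := by
          refine b1.trans ?_
          apply mul_le_mul_of_nonneg_left _ hB.le
          nlinarith [norm_nonneg θ]
        nlinarith [norm_nonneg s1]
      calc e * ‖(g : ℂ) * s1 - s2‖ ≤ 2 * (2 * (B * ‖θ‖)) :=
            mul_le_mul he2 h1 (norm_nonneg _) (by norm_num)
        _ = 4 * B * ‖θ‖ := by ring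
    have n2 : ‖(d : ℂ) * s4‖ ≤ 3 * B * ‖θ‖ := by
      rw [norm_mul, Complex.norm_natCast]
      have h1 := mul_le_mul_of_nonneg_left b4 (show (0 : ℝ) ≤ d by linarith)
      have h2 : (d : ℝ) * (B * ((q ^ 2 - 1) * ‖θ‖)) = (d * (q ^ 2 - 1)) * (B * ‖θ‖) := by ring
      have h3 := mul_le_mul_of_nonneg_right hq3 (show 0 ≤ B * ‖θ‖ by positivity)
      linarith
    have n3 : ‖((d : ℂ) * (((q ^ 2 : ℝ) : ℂ) - 1)) * s3‖ ≤ 7 * B * ‖θ‖ := by
      have h1 : (d : ℂ) * (((q ^ 2 : ℝ) : ℂ) - 1) = ((d * (q ^ 2 - 1) : ℝ) : ℂ) := by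
        push_cast; ring
      rw [norm_mul, h1, Complex.norm_real, Real.norm_of_nonneg (by
        apply mul_nonneg <;> linarith)]
      have h2 : ‖s3‖ ≤ 9 / 4 * (B * ‖θ‖) := by
        refine b3.trans ?_
        have h4 : B * (q ^ 2 * ‖θ‖) = q ^ 2 * (B * ‖θ‖) := by ring
        rw [h4]
        exact mul_le_mul_of_nonneg_right hqq (by positivity)
      calc (d : ℝ) * (q ^ 2 - 1) * ‖s3‖ ≤ 3 * (9 / 4 * (B * ‖θ‖)) :=
            mul_le_mul hq3 h2 (norm_nonneg _) (by norm_num)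
        _ ≤ 7 * B * ‖θ‖ := by
            have : 0 ≤ B * ‖θ‖ := by positivity
            nlinarith
    rw [e1]
    have := norm_add_le ((e : ℂ) * (g * s1 - s2)) (d * s4 +
        ((d : ℂ) * (((q ^ 2 : ℝ) : ℂ) - 1)) * s3)
    have := norm_add_le ((d : ℂ) * s4) (((d : ℂ) * (((q ^ 2 : ℝ) : ℂ) - 1)) * s3)
    linarith
  have hn6 : ‖(1 / 6 : ℂ)‖ = 1 / 6 := by simp
  obtain ⟨θ, t1, t2, t3, t4⟩ := surj (F := F) (F' := F') (a := 1 / 6) (b := 14 * B) (ρ := ρ)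
    (by norm_num) (by positivity) (by rw [hn6]; linarith) hder hF0 hbd (Y := Y)
    (by rw [hn6]; linarith)
  rw [hn6] at t1
  have t5 : ‖θ‖ ≤ 12 * ‖Y‖ := by
    refine t1.trans (le_of_eq ?_)
    ring
  -- the multiplier
  obtain ⟨l, hl⟩ : ∃ l, l = Λ ((g : ℂ) * θ) - Λ θ := ⟨_, rfl⟩
  have hl1 : ‖l - (-((1 - g : ℝ) : ℂ) * (1 / 6 * θ))‖ ≤ 2 * B * ‖θ‖ ^ 2 := by
    have h1 := hΛ2 θ t2
    have h2 := hΛ2 ((g : ℂ) * θ) (by
      rw [norm_mul, Complex.norm_real, Real.norm_of_nonneg hg0]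
      nlinarith [norm_nonneg θ])
    have h3 : l - (-((1 - g : ℝ) : ℂ) * (1 / 6 * θ)) = (Λ ((g : ℂ) * θ) - 1 / 6 * (g * θ)) -
        (Λ θ - 1 / 6 * θ) := by
      rw [hl]
      push_cast
      ring
    rw [h3]
    refine (norm_sub_le _ _).trans ?_
    rw [norm_mul, Complex.norm_real, Real.norm_of_nonneg hg0] at h2
    have h4 : (g * ‖θ‖) ^ 2 ≤ ‖θ‖ ^ 2 := by
      apply pow_le_pow_left₀ (by positivity)
      nlinarith [norm_nonneg θ]
    have h5 := mul_le_mul_of_nonneg_left h4 hB.le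
    linarith
  have hlre : l.re < 0 := by
    have h1 := (Complex.abs_re_le_norm _).trans hl1
    have h2 := (Complex.abs_re_le_norm _).trans t4
    have h3 : (-((1 - g : ℝ) : ℂ) * (1 / 6 * θ)).re = -((1 - g) * (1 / 6 * θ).re) := by
      rw [neg_mul, Complex.neg_re, Complex.re_ofReal_mul]
    rw [Complex.sub_re, h3] at h1
    rw [Complex.sub_re] at h2
    have h4 := le_abs_self (l.re - -((1 - g) * (1 / 6 * θ).re))
    have h5 := le_abs_self (Y.re - (1 / 6 * θ).re)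
    have h6 : ‖θ‖ ^ 2 ≤ (12 * ‖Y‖) ^ 2 := pow_le_pow_left₀ (norm_nonneg _) t5 2
    have h7 : ‖Y‖ ^ 2 ≤ (2 * ‖ζ‖) ^ 2 := pow_le_pow_left₀ (norm_nonneg _) hYn 2
    have h8 : B * ‖θ‖ ^ 2 ≤ 576 * (B * ‖ζ‖ ^ 2) := by
      have := mul_le_mul_of_nonneg_left (show ‖θ‖ ^ 2 ≤ 576 * ‖ζ‖ ^ 2 by nlinarith) hB.le
      linarith
    obtain ⟨x, hx⟩ : ∃ x, x = (1 / 6 * θ).re := ⟨_, rfl⟩
    rw [← hx] at h1 h2 h4 h5
    obtain ⟨w, hw⟩ : ∃ w, w = B * ‖ζ‖ ^ 2 := ⟨_, rfl⟩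
    have hw0 : 0 ≤ w := by rw [hw]; positivity
    rw [← hw] at h8
    have h9 : 12288 * w + ‖ζ‖ ^ 2 < ζ.re := by
      have : (12288 * B + 1) * ‖ζ‖ ^ 2 = 12288 * w + ‖ζ‖ ^ 2 := by rw [hw]; ring
      linarith
    -- x is positive
    have h10 : 12288 * w - 8064 * w < x := by linarith
    have h11 : 3 / 4 * x ≤ (1 - g) * x := by
      apply mul_le_mul_of_nonneg_right (by linarith)
      linarith
    linarith
  have hθ0 : θ ≠ 0 := by
    rintro rfl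
    rw [hF0] at t3
    rw [← t3] at hYre
    rw [Complex.zero_re] at hYre
    have : 0 ≤ B * ‖ζ‖ ^ 2 := by positivity
    nlinarith
  obtain ⟨κ, hκ⟩ := IsAlgClosed.exists_pow_nat_eq θ (show 0 < 2 by norm_num)
  have hκ0 : κ ≠ 0 := by
    rintro rfl
    apply hθ0
    rw [← hκ]
    simp
  have hgC : (g : ℂ) * θ = (κ / d) ^ 2 := by
    rw [hg, ← hκ]
    push_cast
    field_simp
  have hqC : ((q ^ 2 : ℝ) : ℂ) * θ = ((1 + 1 / d) * κ) ^ 2 := by
    rw [hq, ← hκ]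
    push_cast
    ring
  apply cycle_two hd (κ := κ) (l1 := Λ θ) (l2 := Λ ((g : ℂ) * θ))
    (l3 := Λ (((q ^ 2 : ℝ) : ℂ) * θ)) hA hκ0
  · have := hsinh κ (by rw [hκ]; exact hin1 θ t2)
    rwa [hκ] at this
  · have := hsinh (κ / d) (by rw [← hgC]; exact hin2 θ t2)
    rwa [← hgC] at this
  · have := hsinh ((1 + 1 / d) * κ) (by rw [← hqC]; exact hin3 θ t2)
    rwa [← hqC] at this
  · rw [← hYe, ← t3, hF]
    congr 2
    rw [he]
    push_cast
    field_simp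
  · rw [← hl]
    exact hlre

end Pool.Agent.H79LC
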