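import Mathlib
import Pool.Prelude.Def_F_c31e40fa
import Pool.Agent.H79LC.A3
import Pool.Agent.H79LC.B1
import Pool.Agent.H79LC.B3
import Pool.Agent.H713R2.Ext3
import Pool.Agent.H713R2.Ext2
import Pool.Agent.W677.MC6

/-! # The modulus of local connectivity near the root of the component of period two (helper79) -/

set_option autoImplicit false

open Complex Set Topology Filter Metric N62a1eb23 Bornology

namespace Pool.Agent.H79LC

theorem isConnected_annulus : IsConnected {z : ℂ | 1 < ‖z‖} := by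
  have h1 : IsConnected {z : ℂ | 0 < z.re} :=
    ⟨⟨1, by simp⟩, (convex_halfSpace_re_gt 0).isPreconnected⟩
  have h2 : {z : ℂ | 1 < ‖z‖} = Complex.exp '' {z : ℂ | 0 < z.re} := by
    ext z
    simp only [mem_setOf_eq, mem_image]
    constructor
    · intro hz
      have hz0 : z ≠ 0 := by
        rintro rfl
        rw [norm_zero] at hz
        linarith
      refine ⟨Complex.log z, ?_, Complex.exp_log hz0⟩
      rw [Complex.log_re]
      exact Real.log_pos hz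
    · rintro ⟨w, hw, rfl⟩
      rw [Complex.norm_exp]
      exact Real.one_lt_exp_iff.2 hw
  rw [h2]
  exact h1.image _ Complex.continuous_exp.continuousOn

theorem compl_connected {d : ℕ} (hd : 2 ≤ d) : IsConnected (multibrotSet d)ᶜ := by
  obtain ⟨β, hβ⟩ := Pool.Agent.H713R2.exists_beta hd
  have h := Pool.Agent.H713R2.exteriorMap_of_beta hβ
  rw [← h.image]
  exact isConnected_annulus.image _ h.diff.continuousOn

/-- the parameter of the root -/
noncomputable def c0 (d : ℕ) (A : ℂ) : ℂ := A * (1 + 1 / d)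

theorem c0_eq {d : ℕ} (hd : 2 ≤ d) {A : ℂ} (hA : A ^ (d - 1) = -1 / d) :
    Pool.Agent.W677.MC.cc d A 0 = c0 d A := by
  unfold Pool.Agent.W677.MC.cc c0
  have h : A ^ d = A ^ (d - 1) * A := by
    rw [← pow_succ]
    congr 1
    omega
  rw [add_zero, h, hA]
  ring

theorem norm_A {d : ℕ} (hd : 2 ≤ d) {A : ℂ} (hA : A ^ (d - 1) = -1 / d) :
    1 / 2 ≤ ‖A‖ ∧ ‖A‖ ≤ 1 := by
  refine ⟨?_, (Pool.Agent.W677.MC.A_le hd hA).1⟩
  have hdr : (2 : ℝ) ≤ d := by exact_mod_cast hd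
  have h1 : ‖A‖ ^ (d - 1) = 1 / d := by
    rw [← norm_pow, hA, norm_div, norm_neg, norm_one, Complex.norm_natCast]
  by_contra hcon
  push Not at hcon
  have h2 : ‖A‖ ^ (d - 1) < (1 / 2) ^ (d - 1) :=
    pow_lt_pow_left₀ hcon (norm_nonneg _) (by omega)
  rw [h1, one_div_pow] at h2
  have h3 : (d : ℝ) ≤ 2 ^ (d - 1) := by
    have : d - 1 < 2 ^ (d - 1) := Nat.lt_two_pow_self
    have h4 : d ≤ 2 ^ (d - 1) := by omega
    exact_mod_cast h4
  have h4 := one_div_le_one_div_of_le (by linarith) h3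
  linarith

theorem norm_c0 {d : ℕ} (hd : 2 ≤ d) {A : ℂ} (hA : A ^ (d - 1) = -1 / d) :
    1 / 2 ≤ ‖c0 d A‖ ∧ ‖c0 d A‖ ≤ 3 / 2 := by
  have hdr : (2 : ℝ) ≤ d := by exact_mod_cast hd
  obtain ⟨h1, h2⟩ := norm_A hd hA
  have h3 : ‖c0 d A‖ = ‖A‖ * (1 + 1 / d) := by
    unfold c0
    rw [norm_mul]
    have : (1 : ℂ) + 1 / d = ((1 + 1 / d : ℝ) : ℂ) := by push_cast; ring
    rw [this, Complex.norm_real, Real.norm_of_nonneg (by positivity)]
  have h4 : 0 ≤ 1 / (d : ℝ) := by positivity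
  have h5 : 1 / (d : ℝ) ≤ 1 / 2 := one_div_le_one_div_of_le (by norm_num) hdr
  rw [h3]
  constructor <;> nlinarith

theorem c0_ne {d : ℕ} (hd : 2 ≤ d) {A : ℂ} (hA : A ^ (d - 1) = -1 / d) : c0 d A ≠ 0 := by
  intro h
  have := (norm_c0 hd hA).1
  rw [h, norm_zero] at this
  linarith

/-- the Multibrot set in the coordinate `ζ` -/
def KK (d : ℕ) (A : ℂ) : Set ℂ := {ζ | c0 d A * (1 + ζ / d) ∈ multibrotSet d}

/-- the coordinate change -/
noncomputable def FF (d : ℕ) (A : ℂ) (ζ : ℂ) : ℂ := c0 d A * (1 + ζ / d)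

noncomputable def GG (d : ℕ) (A : ℂ) (c : ℂ) : ℂ := d * (c / c0 d A - 1)

theorem GG_FF {d : ℕ} (hd : 2 ≤ d) {A : ℂ} (hA : A ^ (d - 1) = -1 / d) (ζ : ℂ) :
    GG d A (FF d A ζ) = ζ := by
  have hdC : (d : ℂ) ≠ 0 := by exact_mod_cast (show d ≠ 0 by omega)
  have := c0_ne hd hA
  unfold GG FF
  field_simp
  ring

theorem FF_GG {d : ℕ} (hd : 2 ≤ d) {A : ℂ} (hA : A ^ (d - 1) = -1 / d) (c : ℂ) :
    FF d A (GG d A c) = c := by
  have hdC : (d : ℂ) ≠ 0 := by exact_mod_cast (show d ≠ 0 by omega)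
  have := c0_ne hd hA
  unfold GG FF
  field_simp
  ring

theorem FF_sub {d : ℕ} (A : ℂ) (x y : ℂ) :
    FF d A x - FF d A y = c0 d A / d * (x - y) := by
  unfold FF
  ring

theorem dist_FF {d : ℕ} (A : ℂ) (x y : ℂ) :
    dist (FF d A x) (FF d A y) = ‖c0 d A‖ / d * dist x y := by
  rw [dist_eq_norm, FF_sub, norm_mul, norm_div, Complex.norm_natCast, dist_eq_norm]

theorem KK_eq {d : ℕ} (hd : 2 ≤ d) {A : ℂ} (hA : A ^ (d - 1) = -1 / d) :
    KK d A = GG d A '' multibrotSet d := by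
  ext ζ
  constructor
  · intro h
    exact ⟨FF d A ζ, h, GG_FF hd hA ζ⟩
  · rintro ⟨c, hc, rfl⟩
    show FF d A (GG d A c) ∈ multibrotSet d
    rwa [FF_GG hd hA]

theorem continuous_GG (d : ℕ) (A : ℂ) : Continuous (GG d A) := by
  unfold GG
  fun_prop

theorem KK_compact {d : ℕ} (hd : 2 ≤ d) {A : ℂ} (hA : A ^ (d - 1) = -1 / d) :
    IsCompact (KK d A) := by
  rw [KK_eq hd hA]
  exact (Pool.Agent.H712R2.isCompact_multibrot hd).image (continuous_GG d A)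

theorem KK_compl {d : ℕ} (hd : 2 ≤ d) {A : ℂ} (hA : A ^ (d - 1) = -1 / d) :
    IsConnected (KK d A)ᶜ := by
  have h : (KK d A)ᶜ = GG d A '' (multibrotSet d)ᶜ := by
    ext ζ
    constructor
    · intro h
      exact ⟨FF d A ζ, h, GG_FF hd hA ζ⟩
    · rintro ⟨c, hc, rfl⟩
      show FF d A (GG d A c) ∉ multibrotSet d
      rwa [FF_GG hd hA]
  rw [h]
  exact (compl_connected hd).image _ (continuous_GG d A).continuousOn

theorem KK_zero {d : ℕ} (hd : 2 ≤ d) {A : ℂ} (hA : A ^ (d - 1) = -1 / d) : (0 : ℂ) ∈ KK d A := by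
  show c0 d A * (1 + 0 / d) ∈ multibrotSet d
  rw [zero_div, add_zero, mul_one, ← c0_eq hd hA]
  exact Pool.Agent.W677.MC.mem0 hd hA

/-- points of the complement near zero -/
theorem KK_escape {d : ℕ} (hd : 2 ≤ d) {A : ℂ} (hA : A ^ (d - 1) = -1 / d) {ε : ℝ} (hε : 0 < ε) :
    ∃ ζ : ℂ, ‖ζ‖ < ε ∧ ζ ∉ KK d A := by
  obtain ⟨k₀, K, X, hK, hX, h⟩ := Pool.Agent.W677.MC.gateG hd hA
  have hcont : Continuous (fun x : ℂ => GG d A (Pool.Agent.W677.MC.cc d A x)) := by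
    apply (continuous_GG d A).comp
    unfold Pool.Agent.W677.MC.cc
    fun_prop
  have h0 : GG d A (Pool.Agent.W677.MC.cc d A 0) = 0 := by
    rw [c0_eq hd hA]
    unfold GG
    rw [div_self (c0_ne hd hA)]
    ring
  obtain ⟨δ, hδ, hδ'⟩ := Metric.continuous_iff.1 hcont 0 ε hε
  obtain ⟨T, hT⟩ := exists_nat_gt (max X (K / δ))
  have hTX : X ≤ T := (le_max_left _ _).trans hT.le
  have hT2 : K / δ < T := lt_of_le_of_lt (le_max_right _ _) hT
  have hT1 : (1 : ℝ) ≤ T := hX.trans hTX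
  obtain ⟨x, hx, n, -, hn⟩ := h T hTX
  have hxδ : ‖x‖ < δ := by
    refine lt_of_le_of_lt hx ?_
    rw [div_lt_iff₀ (by positivity)]
    rw [div_lt_iff₀ hδ] at hT2
    have : (T : ℝ) ≤ (T : ℝ) ^ 10 := le_self_pow₀ hT1 (by norm_num)
    nlinarith
  refine ⟨GG d A (Pool.Agent.W677.MC.cc d A x), ?_, ?_⟩
  · have := hδ' x (by rw [dist_zero_right]; exact hxδ)
    rwa [h0, dist_zero_right] at this
  · intro hmem
    have h1 : FF d A (GG d A (Pool.Agent.W677.MC.cc d A x)) ∈ multibrotSet d := hmem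
    rw [FF_GG hd hA, Pool.Agent.H712R2.mem_multibrot_iff hd] at h1
    have := h1 (k₀ + 2 * n)
    linarith

/-- multiplication by a root of unity -/
theorem rot_mem {d : ℕ} (hd : 2 ≤ d) {w c : ℂ} (hw : w ^ (d - 1) = 1) (hc : c ∈ multibrotSet d) :
    w * c ∈ multibrotSet d := by
  rw [Pool.Agent.H712R2.mem_multibrot_iff hd] at hc ⊢
  have hw0 : w ≠ 0 := by
    rintro rfl
    rw [zero_pow (by omega)] at hw
    exact zero_ne_one hw
  have hn : ‖w‖ = 1 := by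
    have h1 : ‖w‖ ^ (d - 1) = 1 := by rw [← norm_pow, hw, norm_one]
    exact (pow_eq_one_iff_of_nonneg (norm_nonneg _) (by omega)).1 h1
  have hwd : w ^ d = w := by
    have : w ^ d = w ^ (d - 1) * w := by
      rw [← pow_succ]
      congr 1
      omega
    rw [this, hw, one_mul]
  have key : ∀ k, Pool.Agent.H712R2.P d k (w * c) = w * Pool.Agent.H712R2.P d k c := by
    intro k
    induction k with
    | zero => simp [Pool.Agent.H712R2.P]
    | succ k ih =>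
      have e : ∀ c, Pool.Agent.H712R2.P d (k + 1) c = Pool.Agent.H712R2.P d k c ^ d + c :=
        fun c => by
          unfold Pool.Agent.H712R2.P
          rw [Function.iterate_succ_apply']
          rfl
      rw [e, e, ih, mul_pow, hwd]
      ring
  intro k
  rw [key, norm_mul, hn, one_mul]
  exact hc k

theorem KK_conj {d : ℕ} (hd : 2 ≤ d) {A : ℂ} (hA : A ^ (d - 1) = -1 / d) {ζ : ℂ}
    (h : ζ ∈ KK d A) : (starRingEnd ℂ) ζ ∈ KK d A := by
  have hA0 : A ≠ 0 := norm_pos_iff.1 (Pool.Agent.W677.MC.A_le hd hA).2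
  have hA1 : (starRingEnd ℂ) A ≠ 0 := by
    intro h
    exact hA0 (by simpa using h)
  have h1 : (starRingEnd ℂ) A ^ (d - 1) = -1 / d := by
    rw [← map_pow, hA]
    simp
  have hw : (A / (starRingEnd ℂ) A) ^ (d - 1) = 1 := by
    have hdC : (d : ℂ) ≠ 0 := by exact_mod_cast (show d ≠ 0 by omega)
    rw [div_pow, hA, h1, div_self]
    exact div_ne_zero (neg_ne_zero.2 one_ne_zero) hdC
  have h2 := rot_mem hd hw (conj_mem hd h)
  have h3 : A / (starRingEnd ℂ) A * (starRingEnd ℂ) (c0 d A * (1 + ζ / d)) =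
      c0 d A * (1 + (starRingEnd ℂ) ζ / d) := by
    unfold c0
    simp only [map_mul, map_add, map_one, map_div₀, map_natCast]
    field_simp
  rw [h3] at h2
  exact h2

/-- **the modulus near the root** -/
theorem tangency : ∃ D η₀ : ℝ, 1 ≤ D ∧ 0 < η₀ ∧ ∀ d : ℕ, 2 ≤ d → ∀ A : ℂ,
    A ^ (d - 1) = -1 / d → ∀ η : ℝ, 0 < η → η ≤ η₀ →
      (∃ z, IsAttractingCycle (Pool.Agent.W747.MB.f d (FF d A ⟨-(D * η ^ 2), η⟩)) 1 z) ∧
      (∃ z, Pool.Agent.W747.MB.f d (FF d A ⟨D * η ^ 2, η⟩) z ≠ z ∧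
        IsAttractingCycle (Pool.Agent.W747.MB.f d (FF d A ⟨D * η ^ 2, η⟩)) 2 z) ∧
      (∃ T : Set ℂ, T ⊆ KK d A ∧ IsCompact T ∧ IsConnected T ∧ (⟨-(D * η ^ 2), η⟩ : ℂ) ∈ T ∧
        (⟨D * η ^ 2, η⟩ : ℂ) ∈ T ∧ (0 : ℂ) ∈ T ∧ Metric.diam T ≤ 4 * η) ∧
      ∀ S : Set ℂ, S ⊆ KK d A → IsPreconnected S → (⟨-(D * η ^ 2), η⟩ : ℂ) ∈ S →
        (⟨D * η ^ 2, η⟩ : ℂ) ∈ S → η / 2 ≤ Metric.diam S := by
  obtain ⟨r₂, C₂, hr₂, hC₂, h2⟩ := region_two
  obtain ⟨ρ, hρ⟩ : ∃ ρ, ρ = min (1 / 14) r₂ := ⟨_, rfl⟩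
  have hρ0 : 0 < ρ := by rw [hρ]; positivity
  have hρ1 : ρ ≤ 1 / 14 := by rw [hρ]; exact min_le_left _ _
  have hρ2 : ρ ≤ r₂ := by rw [hρ]; exact min_le_right _ _
  obtain ⟨C, hC⟩ : ∃ C, C = max 14 C₂ := ⟨_, rfl⟩
  have hC1 : 14 ≤ C := by rw [hC]; exact le_max_left _ _
  have hC2 : C₂ ≤ C := by rw [hC]; exact le_max_right _ _
  obtain ⟨D, hD⟩ : ∃ D, D = C + 1 := ⟨_, rfl⟩
  have hD15 : 15 ≤ D := by linarith
  have hD0 : 0 < D := by linarith
  refine ⟨D, min (ρ / 2) (1 / (2 * D ^ 2)), by linarith, by positivity, ?_⟩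
  intro d hd A hA η hη hηle
  have hη1 : η ≤ ρ / 2 := hηle.trans (min_le_left _ _)
  have hη2 : η ≤ 1 / (2 * D ^ 2) := hηle.trans (min_le_right _ _)
  rw [le_div_iff₀ (by positivity)] at hη2
  have hηD : D * η ≤ 1 / 2 := by nlinarith
  have hDη : D * η ^ 2 ≤ η / 2 := by nlinarith
  -- the regions
  have hreg1 : ∀ ζ : ℂ, ‖ζ‖ ≤ ρ → C * ‖ζ‖ ^ 2 < |ζ.re| → ζ.re < 0 →
      ∃ z, IsAttractingCycle (Pool.Agent.W747.MB.f d (FF d A ζ)) 1 z := by
    intro ζ h1 h3 h5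
    rw [abs_of_neg h5] at h3
    apply region_one hd hA (h1.trans hρ1)
    have := mul_le_mul_of_nonneg_right hC1 (sq_nonneg ‖ζ‖)
    linarith
  have hreg2 : ∀ ζ : ℂ, ‖ζ‖ ≤ ρ → C * ‖ζ‖ ^ 2 < |ζ.re| → 0 ≤ ζ.re →
      ∃ z, Pool.Agent.W747.MB.f d (FF d A ζ) z ≠ z ∧
        IsAttractingCycle (Pool.Agent.W747.MB.f d (FF d A ζ)) 2 z := by
    intro ζ h1 h3 h5
    rw [abs_of_nonneg h5] at h3
    apply h2 d hd A hA ζ (h1.trans hρ2)
    have := mul_le_mul_of_nonneg_right hC2 (sq_nonneg ‖ζ‖)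
    linarith
  have hreg : ∀ ζ : ℂ, ‖ζ‖ ≤ ρ → C * ‖ζ‖ ^ 2 < |ζ.re| → ζ ∈ KK d A := by
    intro ζ h1 h3
    rcases lt_or_ge ζ.re 0 with h5 | h5
    · obtain ⟨z, hz⟩ := hreg1 ζ h1 h3 h5
      exact Pool.Agent.TH363.CD.mem_multibrot hd hz
    · obtain ⟨z, -, hz⟩ := hreg2 ζ h1 h3 h5
      exact Pool.Agent.TH363.CD.mem_multibrot hd hz
  have hns : ∀ a b : ℝ, ‖(⟨a, b⟩ : ℂ)‖ ^ 2 = a ^ 2 + b ^ 2 := by
    intro a b
    rw [← Complex.normSq_eq_norm_sq, Complex.normSq_mk]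
    ring
  -- the arcs
  have hineq : ∀ t : ℝ, 0 < t → t ≤ η → ∀ s : ℝ, |s| = D * t ^ 2 → ‖(⟨s, t⟩ : ℂ)‖ ≤ ρ ∧
      ‖(⟨s, t⟩ : ℂ)‖ ≤ 2 * t ∧ C * ‖(⟨s, t⟩ : ℂ)‖ ^ 2 < |s| := by
    intro t h0 ht s hs
    have hs2 : s ^ 2 = D ^ 2 * t ^ 4 := by
      rw [← sq_abs, hs]
      ring
    have hDt : D * t ≤ 1 / 2 := by nlinarith
    have hn : ‖(⟨s, t⟩ : ℂ)‖ ^ 2 = D ^ 2 * t ^ 4 + t ^ 2 := by rw [hns, hs2]
    have hCt : C * D ^ 2 * t ^ 2 < 1 := by
      have h6 : t ^ 2 ≤ η ^ 2 := pow_le_pow_left₀ h0.le ht 2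
      have h7 : D ^ 2 * η ^ 2 ≤ η / 2 := by nlinarith
      have h8 : D * η ≤ 1 / 2 := hηD
      have h9 : C * (D ^ 2 * t ^ 2) ≤ D * (D ^ 2 * η ^ 2) := by
        apply mul_le_mul (by linarith) _ (by positivity) hD0.le
        exact mul_le_mul_of_nonneg_left h6 (by positivity)
      nlinarith
    have h2t : ‖(⟨s, t⟩ : ℂ)‖ ≤ 2 * t := by
      apply le_of_sq_le_sq _ (by linarith)
      rw [hn]
      have : t ^ 2 * (D ^ 2 * t ^ 2 + 1) ≤ t ^ 2 * 4 := by
        apply mul_le_mul_of_nonneg_left _ (by positivity)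
        nlinarith
      nlinarith
    refine ⟨by linarith, h2t, ?_⟩
    rw [hn, hs, hD]
    have : C * (C + 1) ^ 2 * t ^ 2 < 1 := by rw [← hD]; exact hCt
    have h10 : 0 < t ^ 2 := by positivity
    nlinarith
  have harc : ∀ t : ℝ, 0 ≤ t → t ≤ η → ∀ s : ℝ, |s| = D * t ^ 2 → (⟨s, t⟩ : ℂ) ∈ KK d A := by
    intro t ht0 ht s hs
    rcases ht0.eq_or_lt with h0 | h0
    · subst h0
      have : s = 0 := by
        rw [← abs_eq_zero, hs]
        ring
      subst this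
      exact KK_zero hd hA
    obtain ⟨h4, -, h5⟩ := hineq t h0 ht s hs
    exact hreg _ h4 h5
  have hs1 : |-(D * η ^ 2)| = D * η ^ 2 := by rw [abs_neg, abs_of_nonneg (by positivity)]
  have hs2 : |D * η ^ 2| = D * η ^ 2 := abs_of_nonneg (by positivity)
  have hDη0 : 0 < D * η ^ 2 := by positivity
  have hy1 : (⟨-(D * η ^ 2), η⟩ : ℂ) ∈ KK d A := harc η hη.le le_rfl _ hs1
  have hy2 : (⟨D * η ^ 2, η⟩ : ℂ) ∈ KK d A := harc η hη.le le_rfl _ hs2
  -- the barrier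
  obtain ⟨T, hT⟩ : ∃ T : Set ℂ, T = (fun t : ℝ => (⟨D * t ^ 2, t⟩ : ℂ)) '' Icc 0 η ∪
      (fun t : ℝ => (⟨-(D * t ^ 2), t⟩ : ℂ)) '' Icc 0 η := ⟨_, rfl⟩
  have hc1 : Continuous (fun t : ℝ => (⟨D * t ^ 2, t⟩ : ℂ)) := by
    have : (fun t : ℝ => (⟨D * t ^ 2, t⟩ : ℂ)) = fun t : ℝ => ((D * t ^ 2 : ℝ) : ℂ) + t * I := by
      funext t
      apply Complex.ext
      · simp only [Complex.add_re, Complex.ofReal_re, Complex.mul_re, Complex.I_re, mul_zero,
          Complex.ofReal_im, Complex.I_im, mul_one, sub_self, add_zero]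
      · simp only [Complex.add_im, Complex.ofReal_im, Complex.mul_im, Complex.ofReal_re,
          Complex.I_im, mul_one, Complex.I_re, mul_zero, add_zero, zero_add]
    rw [this]
    fun_prop
  have hc2 : Continuous (fun t : ℝ => (⟨-(D * t ^ 2), t⟩ : ℂ)) := by
    have : (fun t : ℝ => (⟨-(D * t ^ 2), t⟩ : ℂ)) =
        fun t : ℝ => ((-(D * t ^ 2) : ℝ) : ℂ) + t * I := by
      funext t
      apply Complex.ext
      · simp only [Complex.add_re, Complex.ofReal_re, Complex.mul_re, Complex.I_re, mul_zero,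
          Complex.ofReal_im, Complex.I_im, mul_one, sub_self, add_zero]
      · simp only [Complex.add_im, Complex.ofReal_im, Complex.mul_im, Complex.ofReal_re,
          Complex.I_im, mul_one, Complex.I_re, mul_zero, add_zero, zero_add]
    rw [this]
    fun_prop
  have h0m : (0 : ℝ) ∈ Icc 0 η := ⟨le_rfl, hη.le⟩
  have hηm : η ∈ Icc 0 η := ⟨hη.le, le_rfl⟩
  have hTcomp : IsCompact T := by
    rw [hT]
    exact (isCompact_Icc.image hc1).union (isCompact_Icc.image hc2)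
  have hT0 : (0 : ℂ) ∈ T := by
    rw [hT]
    refine Or.inl ⟨0, h0m, ?_⟩
    apply Complex.ext <;> simp
  have hTpre : IsPreconnected T := by
    rw [hT]
    refine IsPreconnected.union (0 : ℂ) ⟨0, h0m, ?_⟩ ⟨0, h0m, ?_⟩
      (isPreconnected_Icc.image _ hc1.continuousOn) (isPreconnected_Icc.image _ hc2.continuousOn)
    · apply Complex.ext <;> simp
    · apply Complex.ext <;> simp
  have hTK : T ⊆ KK d A := by
    rw [hT]
    rintro z (⟨t, ht, rfl⟩ | ⟨t, ht, rfl⟩)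
    · exact harc t ht.1 ht.2 _ (abs_of_nonneg (by positivity))
    · exact harc t ht.1 ht.2 _ (by rw [abs_neg, abs_of_nonneg (by positivity)])
  have hT1 : (⟨-(D * η ^ 2), η⟩ : ℂ) ∈ T := by
    rw [hT]
    exact Or.inr ⟨η, hηm, rfl⟩
  have hT2 : (⟨D * η ^ 2, η⟩ : ℂ) ∈ T := by
    rw [hT]
    exact Or.inl ⟨η, hηm, rfl⟩
  have hTre : ∀ a b : ℝ, (⟨a, b⟩ : ℂ) ∈ T → |a| = D * b ^ 2 ∧ 0 ≤ b ∧ b ≤ η := by
    intro a b hab
    rw [hT] at hab
    rcases hab with ⟨t, ht, h⟩ | ⟨t, ht, h⟩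
    · have h3 := congrArg Complex.re h
      have h4 := congrArg Complex.im h
      simp only at h3 h4
      rw [← h3, ← h4, abs_of_nonneg (by positivity)]
      exact ⟨rfl, ht.1, ht.2⟩
    · have h3 := congrArg Complex.re h
      have h4 := congrArg Complex.im h
      simp only at h3 h4
      rw [← h3, ← h4, abs_neg, abs_of_nonneg (by positivity)]
      exact ⟨rfl, ht.1, ht.2⟩
  have hTd : Metric.diam T ≤ 4 * η := by
    have hb : ∀ z ∈ T, ‖z‖ ≤ 2 * η := by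
      rintro ⟨a, b⟩ hz
      obtain ⟨h3, h4, h5⟩ := hTre a b hz
      rcases h4.eq_or_lt with h6 | h6
      · subst h6
        have : a = 0 := by
          rw [← abs_eq_zero, h3]
          ring
        subst this
        have : (⟨0, 0⟩ : ℂ) = 0 := rfl
        rw [this, norm_zero]
        linarith
      · linarith [(hineq b h6 h5 a h3).2.1]
    apply Metric.diam_le_of_forall_dist_le (by linarith)
    intro x hx y hy
    rw [dist_eq_norm]
    linarith [norm_sub_le x y, hb x hx, hb y hy]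
  refine ⟨?_, ?_, ⟨T, hTK, hTcomp, ⟨⟨0, hT0⟩, hTpre⟩, hT1, hT2, hT0, hTd⟩, ?_⟩
  · obtain ⟨h4, -, h5⟩ := hineq η hη le_rfl _ hs1
    exact hreg1 _ h4 h5 (by show -(D * η ^ 2) < 0; linarith)
  · obtain ⟨h4, -, h5⟩ := hineq η hη le_rfl _ hs2
    exact hreg2 _ h4 h5 hDη0.le
  intro S hS hSc hSy hSy'
  by_contra hcon
  push Not at hcon
  have hSb : Bornology.IsBounded S := (KK_compact hd hA).isBounded.subset hS
  -- all the points of `S` have large imaginary part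
  obtain ⟨m, hm⟩ : ∃ m, m = η - Metric.diam S := ⟨_, rfl⟩
  have hm2 : η / 2 < m := by linarith
  have hSim : ∀ z ∈ S, m ≤ z.im := by
    intro z hz
    have h3 := Metric.dist_le_diam_of_mem hSb hSy hz
    rw [dist_eq_norm] at h3
    have h4 := (Complex.abs_im_le_norm _).trans h3
    rw [Complex.sub_im] at h4
    have h5 := le_abs_self (η - z.im)
    linarith
  have hSim' : ∀ z ∈ closure S, m ≤ z.im := by
    intro z hz
    have hcl : IsClosed {z : ℂ | m ≤ z.im} := isClosed_le continuous_const Complex.continuous_im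
    exact closure_minimal (fun z hz => hSim z hz) hcl hz
  -- a point of the complement
  obtain ⟨p, hpε, hpK⟩ := KK_escape hd hA (ε := η / 4) (by positivity)
  obtain ⟨p', hp'ε, hp'K, hp'im⟩ : ∃ p' : ℂ, ‖p'‖ < η / 4 ∧ p' ∉ KK d A ∧ 0 ≤ p'.im := by
    rcases le_total 0 p.im with h | h
    · exact ⟨p, hpε, hpK, h⟩
    · refine ⟨(starRingEnd ℂ) p, by rwa [RCLike.norm_conj], ?_, by rw [Complex.conj_im]; linarith⟩
      intro h3
      apply hpK
      have := KK_conj hd hA h3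
      rwa [Complex.conj_conj] at this
  obtain ⟨ξ, σ, rfl⟩ : ∃ ξ σ : ℝ, p' = ⟨ξ, σ⟩ := ⟨p'.re, p'.im, rfl⟩
  have hσ0 : 0 ≤ σ := hp'im
  have hξn : |ξ| ≤ ‖(⟨ξ, σ⟩ : ℂ)‖ := Complex.abs_re_le_norm ⟨ξ, σ⟩
  have hσn : |σ| ≤ ‖(⟨ξ, σ⟩ : ℂ)‖ := Complex.abs_im_le_norm ⟨ξ, σ⟩
  have hσ4 : σ < η / 4 := lt_of_le_of_lt ((le_abs_self σ).trans hσn) hp'ε
  have hreg' : |ξ| ≤ C * (ξ ^ 2 + σ ^ 2) := by
    by_contra h3
    push Not at h3
    apply hp'K
    apply hreg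
    · linarith
    · rw [hns]
      exact h3
  have hξσ : |ξ| < D * σ ^ 2 := by
    rcases eq_or_ne ξ 0 with h0 | h0
    · subst h0
      rw [abs_zero]
      have : σ ≠ 0 := by
        rintro rfl
        exact hp'K (KK_zero hd hA)
      positivity
    · have h3 : 0 < |ξ| := abs_pos.2 h0
      have h4 : |ξ| < η / 4 := lt_of_le_of_lt hξn hp'ε
      have h5 : C * |ξ| * D ≤ 1 := by
        have h51 : C * |ξ| ≤ D * (η / 4) := mul_le_mul (by linarith) h4.le h3.le hD0.le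
        nlinarith
      have h6 : ξ ^ 2 = |ξ| ^ 2 := (sq_abs ξ).symm
      rw [h6] at hreg'
      -- `|ξ| (1 - C |ξ|) ≤ C σ²`
      have h7 : |ξ| * (C / D) ≤ C * σ ^ 2 := by
        have h8 : C / D ≤ 1 - C * |ξ| := by
          rw [div_le_iff₀ hD0]
          nlinarith
        have := mul_le_mul_of_nonneg_left h8 h3.le
        nlinarith
      have h9 : |ξ| ≤ D * σ ^ 2 := by
        have h10 : |ξ| * (C / D) * D = |ξ| * C := by field_simp
        have h11 := mul_le_mul_of_nonneg_right h7 hD0.le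
        rw [h10] at h11
        have h12 : C * |ξ| ≤ C * (D * σ ^ 2) := by linarith
        exact le_of_mul_le_mul_left h12 (by linarith)
      rcases h9.eq_or_lt with h10 | h10
      · exfalso
        apply hp'K
        exact harc σ hσ0 (by linarith) ξ h10
      · exact h10
  have hσσ : σ ^ 2 ≤ (η / 4) ^ 2 := pow_le_pow_left₀ hσ0 hσ4.le 2
  have hξη : |ξ| < D * η ^ 2 := by nlinarith
  obtain ⟨hξa, hξb⟩ := abs_lt.1 hξη
  refine separation (KK_compact hd hA) (KK_compl hd hA) hS hTK hSc hTpre (η := η)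
    (a := D * η ^ 2) (b := D * η ^ 2) (ξ := ξ) (σ := σ) hξa hξb (by linarith) hSy hSy' hT1 hT2
    hp'K ?_ ?_
  · intro t ht h3
    have h4 := hSim' _ h3
    have h5 : m ≤ t := h4
    linarith
  · intro t ht h3
    rw [hTcomp.isClosed.closure_eq] at h3
    have h4 := (hTre _ _ h3).1
    have h5 : σ ^ 2 ≤ t ^ 2 := pow_le_pow_left₀ hσ0 ht 2
    nlinarith

/-- **the small scale law, uniform in the degree** -/
theorem small_scale : ∃ κ K δ₀ : ℝ, 0 < κ ∧ 0 < K ∧ 0 < δ₀ ∧ ∀ d : ℕ, 2 ≤ d → ∀ A : ℂ,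
    A ^ (d - 1) = -1 / d → ∀ δ : ℝ, 0 < δ → δ ≤ δ₀ / d →
      ∃ x ∈ multibrotSet d, ∃ y ∈ multibrotSet d,
        (∃ z, IsAttractingCycle (Pool.Agent.W747.MB.f d x) 1 z) ∧
        (∃ z, Pool.Agent.W747.MB.f d y z ≠ z ∧ IsAttractingCycle (Pool.Agent.W747.MB.f d y) 2 z) ∧
        dist x y ≤ δ ∧
        (∃ T : Set ℂ, T ⊆ multibrotSet d ∧ IsCompact T ∧ IsConnected T ∧ x ∈ T ∧ y ∈ T ∧
          A * (1 + 1 / d) ∈ T ∧ Metric.diam T ≤ K * Real.sqrt (δ / d)) ∧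
        ∀ S : Set ℂ, S ⊆ multibrotSet d → IsPreconnected S → x ∈ S → y ∈ S →
          κ * Real.sqrt (δ / d) ≤ Metric.diam S := by
  obtain ⟨D, η₀, hD, hη₀, h⟩ := tangency
  refine ⟨1 / (4 * Real.sqrt D), 6, D * η₀ ^ 2, by positivity, by norm_num, by positivity, ?_⟩
  intro d hd A hA δ hδ hδ'
  have hdr : (2 : ℝ) ≤ d := by exact_mod_cast hd
  have hd0 : (0 : ℝ) < d := by linarith
  obtain ⟨hn1, hn2⟩ := norm_c0 hd hA
  obtain ⟨N, hN⟩ : ∃ N, N = ‖c0 d A‖ := ⟨_, rfl⟩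
  rw [← hN] at hn1 hn2
  -- choice of `η`
  obtain ⟨η, hηd⟩ : ∃ η, η = Real.sqrt (δ * d / (2 * D * N)) := ⟨_, rfl⟩
  have harg : 0 < δ * d / (2 * D * N) := by positivity
  have hη : 0 < η := by rw [hηd]; exact Real.sqrt_pos.2 harg
  have hηsq : η ^ 2 = δ * d / (2 * D * N) := by rw [hηd, Real.sq_sqrt harg.le]
  have hηle : η ≤ η₀ := by
    apply le_of_sq_le_sq _ hη₀.le
    rw [hηsq, div_le_iff₀ (by positivity)]
    rw [le_div_iff₀ hd0] at hδ'
    have : D * η₀ ^ 2 * 1 ≤ D * η₀ ^ 2 * (2 * N) :=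
      mul_le_mul_of_nonneg_left (by linarith) (by positivity)
    linarith
  obtain ⟨h1, h2, ⟨T, hTK, hTc, hTco, hT1, hT2, hT0, hTd⟩, h3⟩ := h d hd A hA η hη hηle
  refine ⟨FF d A _, hTK hT1, FF d A _, hTK hT2, h1, h2, ?_, ?_, ?_⟩
  · rw [dist_FF, ← hN]
    have e1 : dist (⟨-(D * η ^ 2), η⟩ : ℂ) ⟨D * η ^ 2, η⟩ = 2 * D * η ^ 2 := by
      have e0 : dist (⟨-(D * η ^ 2), η⟩ : ℂ) ⟨D * η ^ 2, η⟩ =
          dist (-(D * η ^ 2)) (D * η ^ 2) :=
        Complex.dist_of_im_eq (z := (⟨-(D * η ^ 2), η⟩ : ℂ)) (w := ⟨D * η ^ 2, η⟩) rfl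
      rw [e0, Real.dist_eq]
      rw [show -(D * η ^ 2) - D * η ^ 2 = -(2 * D * η ^ 2) by ring, abs_neg,
        abs_of_nonneg (by positivity)]
    rw [e1, hηsq]
    apply le_of_eq
    field_simp
  · have hFc : Continuous (FF d A) := by
      unfold FF
      fun_prop
    refine ⟨FF d A '' T, ?_, hTc.image hFc, hTco.image _ hFc.continuousOn, ⟨_, hT1, rfl⟩,
      ⟨_, hT2, rfl⟩, ⟨0, hT0, ?_⟩, ?_⟩
    · rintro _ ⟨z, hz, rfl⟩
      exact hTK hz
    · unfold FF c0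
      rw [zero_div, add_zero, mul_one]
    · have h5 : Metric.diam (FF d A '' T) ≤ N / d * Metric.diam T := by
        apply Metric.diam_le_of_forall_dist_le
          (mul_nonneg (by positivity) Metric.diam_nonneg)
        rintro _ ⟨a, ha, rfl⟩ _ ⟨b, hb, rfl⟩
        rw [dist_FF, ← hN]
        exact mul_le_mul_of_nonneg_left (Metric.dist_le_diam_of_mem hTc.isBounded ha hb)
          (by positivity)
      have h6 : N / d * Metric.diam T ≤ N / d * (4 * η) :=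
        mul_le_mul_of_nonneg_left hTd (by positivity)
      refine (h5.trans h6).trans ?_
      apply le_of_sq_le_sq _ (by positivity)
      rw [mul_pow, mul_pow 4, hηsq, mul_pow, Real.sq_sqrt (by positivity), div_pow]
      have e4 : N ^ 2 / (d : ℝ) ^ 2 * (4 ^ 2 * (δ * d / (2 * D * N))) = 8 * (N / D) * (δ / d) := by
        field_simp
        ring
      rw [e4]
      have h7 : N / D ≤ 3 / 2 := by
        rw [div_le_iff₀ (by linarith)]
        nlinarith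
      have h8 : 0 ≤ δ / d := by positivity
      nlinarith
  · intro S hS hSc hxS hyS
    have hS' : GG d A '' S ⊆ KK d A := by
      rw [KK_eq hd hA]
      exact image_mono hS
    have h4 := h3 (GG d A '' S) hS' (hSc.image _ (continuous_GG d A).continuousOn)
      ⟨_, hxS, GG_FF hd hA _⟩ ⟨_, hyS, GG_FF hd hA _⟩
    have h5 : Metric.diam (GG d A '' S) ≤ d / N * Metric.diam S := by
      have hSb : Bornology.IsBounded S :=
        (Pool.Agent.H712R2.isCompact_multibrot hd).isBounded.subset hS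
      apply Metric.diam_le_of_forall_dist_le (by positivity)
      rintro _ ⟨a, ha, rfl⟩ _ ⟨b, hb, rfl⟩
      have e2 : dist a b = N / d * dist (GG d A a) (GG d A b) := by
        rw [hN, ← dist_FF, FF_GG hd hA, FF_GG hd hA]
      have e3 : dist (GG d A a) (GG d A b) = d / N * dist a b := by
        rw [e2]
        field_simp
      rw [e3]
      exact mul_le_mul_of_nonneg_left (Metric.dist_le_diam_of_mem hSb ha hb) (by positivity)
    have h6 : N * η / (2 * d) ≤ Metric.diam S := by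
      have h7 := h4.trans h5
      rw [div_mul_eq_mul_div, le_div_iff₀ (by positivity)] at h7
      rw [div_le_iff₀ (by positivity)]
      linarith
    refine le_trans ?_ h6
    -- `κ √(δ / d) ≤ N η / (2 d)`
    apply le_of_sq_le_sq _ (by positivity)
    rw [mul_pow, Real.sq_sqrt (by positivity), div_pow, div_pow, mul_pow N, hηsq, mul_pow,
      Real.sq_sqrt (by linarith)]
    rw [div_mul_div_comm, div_le_div_iff₀ (by positivity) (by positivity)]
    have e4 : N ^ 2 * (δ * d / (2 * D * N)) = N * δ * d / (2 * D) := by field_simp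
    rw [e4]
    have e5 : N * δ * d / (2 * D) * (4 ^ 2 * D * d) = 8 * N * δ * d ^ 2 := by
      field_simp
      ring
    rw [e5]
    have : δ * d ^ 2 * 1 ≤ δ * d ^ 2 * (2 * N) :=
      mul_le_mul_of_nonneg_left (by linarith) (by positivity)
    nlinarith

end Pool.Agent.H79LC
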