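import Mathlib
import Pool.Prelude.Def_F_c31e40fa
import Pool.Agent.N228.LC.Mod

/-! # Local connectivity and the modulus (helper79) -/

set_option autoImplicit false

open Complex Set Topology Filter Metric N62a1eb23 Pool.Agent.H712R2

namespace Pool.Agent.H79LC

open Pool.Agent.N228.LC

theorem modulus_nonneg {n : ℕ} (hn : 2 ≤ n) {δ : ℝ} (hδ : 0 ≤ δ) :
    0 ≤ modulus (multibrotSet n) δ := by
  obtain ⟨x, hx⟩ := (isConnected_multibrot hn).nonempty
  exact (le_joining hn hx hx fun S _ _ _ _ => Metric.diam_nonneg).trans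
    (le_modulus hn hx hx (by rw [dist_self]; exact hδ))

/-- local connectivity of the Multibrot set means that the modulus tends to zero -/
theorem lc_iff {n : ℕ} (hn : 2 ≤ n) : LocallyConnectedSpace (multibrotSet n) ↔
    Tendsto (modulus (multibrotSet n)) (𝓝[>] 0) (𝓝 0) := by
  have hc := isCompact_multibrot hn
  constructor
  · intro hLC
    rw [Metric.tendsto_nhdsWithin_nhds]
    intro ε hε
    haveI : CompactSpace (multibrotSet n) := isCompact_iff_compactSpace.1 hc
    have hU : ∀ x : multibrotSet n, ∃ U : Set (multibrotSet n), U ⊆ ball x (ε / 5) ∧ IsOpen U ∧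
        x ∈ U ∧ IsConnected U := by
      intro x
      exact locallyConnectedSpace_iff_subsets_isOpen_isConnected.1 hLC x _
        (ball_mem_nhds x (by positivity))
    choose U hU1 hU2 hU3 hU4 using hU
    obtain ⟨δ, hδ, hL⟩ := lebesgue_number_lemma_of_metric (s := (univ : Set (multibrotSet n)))
      isCompact_univ (fun x => hU2 x) (fun x _ => mem_iUnion.2 ⟨x, hU3 x⟩)
    refine ⟨δ, hδ, ?_⟩
    intro t ht0 ht
    rw [mem_Ioi] at ht0
    rw [Real.dist_eq, sub_zero, abs_of_pos ht0] at ht
    rw [Real.dist_eq, sub_zero, abs_of_nonneg (modulus_nonneg hn ht0.le)]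
    have key : modulus (multibrotSet n) t ≤ 2 * (ε / 5) := by
      apply csSup_le
      · obtain ⟨x, hx⟩ := (isConnected_multibrot hn).nonempty
        exact ⟨_, x, hx, x, hx, by rw [dist_self]; exact ht0.le, rfl⟩
      · rintro _ ⟨x, hx, y, hy, hxy, rfl⟩
        obtain ⟨i, hi⟩ := hL ⟨x, hx⟩ (mem_univ _)
        have hxi : (⟨x, hx⟩ : multibrotSet n) ∈ U i := hi (mem_ball_self hδ)
        have hyi : (⟨y, hy⟩ : multibrotSet n) ∈ U i := hi (by
          rw [mem_ball, dist_comm]
          exact lt_of_le_of_lt hxy ht)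
        have h1 : IsCompact (Subtype.val '' closure (U i)) :=
          (isClosed_closure.isCompact).image continuous_subtype_val
        have h2 : IsConnected (Subtype.val '' closure (U i)) :=
          (hU4 i).closure.image _ continuous_subtype_val.continuousOn
        refine (joining_le (Subtype.coe_image_subset _ _) h1 h2 ⟨_, subset_closure hxi, rfl⟩
          ⟨_, subset_closure hyi, rfl⟩).trans ?_
        have h3 : ∀ z ∈ closure (U i), dist z i ≤ ε / 5 := by
          intro z hz
          exact closure_minimal ((hU1 i).trans ball_subset_closedBall) isClosed_closedBall hz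
        apply Metric.diam_le_of_forall_dist_le (by positivity)
        rintro _ ⟨a, ha, rfl⟩ _ ⟨b, hb, rfl⟩
        have h4 : dist a b ≤ dist a i + dist b i := dist_triangle_right a b i
        have h5 : dist (a : ℂ) (b : ℂ) = dist a b := rfl
        rw [h5]
        linarith [h3 a ha, h3 b hb]
    linarith
  · intro h
    rw [locallyConnectedSpace_iff_connectedComponentIn_open]
    intro F hF x hx
    rw [Metric.isOpen_iff]
    intro y hy
    have hyF : y ∈ F := connectedComponentIn_subset F x hy
    obtain ⟨ε, hε, hb⟩ := Metric.isOpen_iff.1 hF y hyF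
    rw [Metric.tendsto_nhdsWithin_nhds] at h
    obtain ⟨δ, hδ, hδ'⟩ := h ε hε
    refine ⟨δ / 2, by positivity, ?_⟩
    intro z hz
    rw [mem_ball] at hz
    have h1 := hδ' (x := δ / 2) (show 0 < δ / 2 by positivity) (by
      rw [Real.dist_eq, sub_zero, abs_of_pos (by positivity)]
      linarith)
    rw [Real.dist_eq, sub_zero] at h1
    have h2 : joining (multibrotSet n) y z < ε :=
      lt_of_le_of_lt (le_modulus hn y.2 z.2 (by
        rw [dist_comm]
        exact hz.le)) (lt_of_le_of_lt (le_abs_self _) h1)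
    have hne : {D : ℝ | ∃ S : Set ℂ, S ⊆ multibrotSet n ∧ IsCompact S ∧ IsConnected S ∧
        (y : ℂ) ∈ S ∧ (z : ℂ) ∈ S ∧ D = Metric.diam S}.Nonempty :=
      ⟨_, multibrotSet n, Subset.rfl, isCompact_multibrot hn, isConnected_multibrot hn, y.2, z.2,
        rfl⟩
    obtain ⟨_, ⟨S, hS1, hS2, hS3, hS4, hS5, rfl⟩, hS6⟩ := exists_lt_of_csInf_lt hne h2
    -- the continuum in the subtype
    have h3 : IsPreconnected ((↑) ⁻¹' S : Set (multibrotSet n)) := by
      have h4 : Subtype.val '' ((↑) ⁻¹' S : Set (multibrotSet n)) = S := by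
        rw [Subtype.image_preimage_coe]
        exact inter_eq_right.2 hS1
      rw [← Topology.IsInducing.subtypeVal.isPreconnected_image, h4]
      exact hS3.isPreconnected
    have h5 : ((↑) ⁻¹' S : Set (multibrotSet n)) ⊆ F := by
      intro w hw
      apply hb
      rw [mem_ball]
      have h7 : dist (w : ℂ) (y : ℂ) ≤ Metric.diam S :=
        Metric.dist_le_diam_of_mem hS2.isBounded hw hS4
      exact lt_of_le_of_lt h7 hS6
    have h6 := h3.subset_connectedComponentIn (show y ∈ _ from hS4) h5
    rw [← connectedComponentIn_eq hy] at h6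
    exact h6 hS5

end Pool.Agent.H79LC
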